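import Pool.Agent.Helper94.EP.CLOWc

/-! # EP/CLOW: lower bound for most `s` in a class (helper94) -/

set_option autoImplicit false

open Finset Polynomial Filter

namespace Pool.Agent.Helper94.EP.CLOW

open Pool.Agent.Helper20.EP Pool.Agent.Helper94.EP

lemma ev_pow (A c e : ℝ) (h : c < e) :
    ∀ᶠ M : ℝ in atTop, A * M ^ (1 - e) ≤ M ^ (1 - c) := by
  filter_upwards [ev_const (e - c) A (by linarith), eventually_ge_atTop 1] with M h1 h2
  have hM0 : (0 : ℝ) < M := by linarith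
  calc A * M ^ (1 - e) ≤ M ^ (e - c) * M ^ (1 - e) :=
        mul_le_mul_of_nonneg_right h1 (by positivity)
    _ = M ^ (1 - c) := by
        rw [← Real.rpow_add hM0]
        congr 1
        ring

lemma ev_neg (κ δ : ℝ) (hκ : 0 < κ) (hδ : 0 < δ) : ∀ᶠ M : ℝ in atTop, M ^ (-κ) < δ :=
  (tendsto_rpow_neg_atTop hκ).eventually_lt_const hδ

open Classical in
theorem main (hOSM : S_OSM) (hTSM : S_TSM) (hMON : S_MON) (hFIELD : S_FIELD) (hIRR : S_IRR)
    (hHITY : S_HITY) (hHITO : S_HITO) (hGEN : S_GEN) (hFROB : S_FROB) (hPAIR : S_PAIR)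
    (hPSD : S_PSD) (hDUALA : S_DUALA) : S_CLOW := by
  intro d hd
  obtain ⟨cI, hcI0, hcI1, hI⟩ := hIRR d hd
  obtain ⟨cY, hcY0, hcY1, hY⟩ := hHITY d hd
  obtain ⟨cO, hcO0, hcO1, hO⟩ := hHITO d hd
  set c : ℝ := min (min cI cY) cO / 2 with hc
  have hmin0 : 0 < min (min cI cY) cO := lt_min (lt_min hcI0 hcY0) hcO0
  have hc0 : 0 < c := by positivity
  have hle1 : min (min cI cY) cO ≤ cI := (min_le_left _ _).trans (min_le_left _ _)
  have hle2 : min (min cI cY) cO ≤ cY := (min_le_left _ _).trans (min_le_right _ _)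
  have hle3 : min (min cI cY) cO ≤ cO := min_le_right _ _
  have hcI : c < cI := by linarith
  have hcY : c < cY := by linarith
  have hcO : c < cO := by linarith
  refine ⟨c, hc0, by linarith, fun ρ c' ε hρ hc' hε => ?_⟩
  obtain ⟨CI, MI, hI⟩ := hI ρ hρ
  obtain ⟨CY, MY, hY⟩ := hY ρ hρ
  obtain ⟨CO, MO, hO⟩ := hO ρ hρ
  obtain ⟨CG, hG⟩ := generic hGEN d
  set κ : ℝ := c' / 2 with hκ
  have hκ0 : 0 < κ := by positivity
  obtain ⟨Mb, hb⟩ := big_y hOSM hTSM hMON d hd (κ / 2) ε (by positivity) hε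
  obtain ⟨Md, hdu⟩ := dual hOSM hTSM hMON hFROB hPAIR hPSD hDUALA d hd κ ε hκ0 hε
  set CY' : ℝ := max CY 0 with hCY'
  have hCY0 : 0 ≤ CY' := le_max_right _ _
  have hCY1 : CY ≤ CY' := le_max_left _ _
  have ev : ∀ᶠ M : ℝ in atTop, 3 ≤ M ∧ MI ≤ M ∧ MY ≤ M ∧ MO ≤ M ∧ Mb ≤ M ∧ Md ≤ M ∧
      CI * M ^ (1 - cI) ≤ M ^ (1 - c) ∧ (CG * (CY' + 1)) * M ^ (1 - cY) ≤ M ^ (1 - c) ∧
      CO * M ^ (1 - cO) ≤ M ^ (1 - c) ∧ M ^ (-c') < ε / 4 ∧ M ^ (-κ) < ε / 4 := by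
    filter_upwards [eventually_ge_atTop 3, eventually_ge_atTop MI, eventually_ge_atTop MY,
      eventually_ge_atTop MO, eventually_ge_atTop Mb, eventually_ge_atTop Md,
      ev_pow CI c cI hcI, ev_pow (CG * (CY' + 1)) c cY hcY, ev_pow CO c cO hcO,
      ev_neg c' (ε / 4) hc' (by positivity), ev_neg κ (ε / 4) hκ0 (by positivity)]
      with M h1 h2 h3 h4 h5 h6 h7 h8 h9 h10 h11
    exact ⟨h1, h2, h3, h4, h5, h6, h7, h8, h9, h10, h11⟩
  obtain ⟨M₁, hM₁⟩ := eventually_atTop.1 ev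
  refine ⟨M₁, fun F M c₀ y ξ S m hL hM hMy hs hm0 hm1 hAC => ?_⟩
  obtain ⟨hM3, hMI, hMY, hMO, hMb, hMd, e1, e2, e3, e4, e5⟩ := hM₁ M hM
  have hM0 : (0 : ℝ) < M := by linarith
  have hM1 : (1 : ℝ) ≤ M := by linarith
  by_contra hmass
  push Not at hmass
  unfold mass at hmass
  set B := S.filter (fun s => RS (F - C s) M y < ll y - ll M - ε * Real.sqrt (ll y)) with hB
  have hBS : B ⊆ S := filter_subset _ _
  set B₁ := B.filter (fun s => Irreducible (mon F s)) with hB₁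
  have hB₁B : B₁ ⊆ B := filter_subset _ _
  have hB₁S : B₁ ⊆ S := hB₁B.trans hBS
  -- the reducible ones
  have hred : ∑ s ∈ B.filter (fun s => ¬ Irreducible (mon F s)), m s ≤ M ^ (-c') := by
    refine hAC _ ((filter_subset _ _).trans hBS) ?_
    refine (hI F M c₀ ξ _ hL hMI (fun s h => hs s (hBS (mem_filter.1 h).1))
      (fun s h => (mem_filter.1 h).2)).trans e1
  have hsplit : ∑ s ∈ B₁, m s + ∑ s ∈ B.filter (fun s => ¬ Irreducible (mon F s)), m s =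
      ∑ s ∈ B, m s := sum_filter_add_sum_filter_not B _ _
  have hB₁m : 3 * ε / 4 < ∑ s ∈ B₁, m s := by linarith
  have hB₁ne : B₁.Nonempty := by
    rw [nonempty_iff_ne_empty]
    intro h
    rw [h, sum_empty] at hB₁m
    linarith
  by_cases hy : ll y ≤ M ^ (κ / 2)
  swap
  · push Not at hy
    obtain ⟨s, hsB⟩ := hB₁ne
    have h1 := hb F M ρ c₀ y ξ s hL hρ hMb hMy (hs s (hB₁S hsB)) (mem_filter.1 hsB).2 hy
    have h2 := (mem_filter.1 (hB₁B hsB)).2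
    linarith
  -- the field
  have hs₁ : ∀ s ∈ B₁, |(s : ℝ) - c₀| ≤ ρ * M / 4 := fun s h => hs s (hB₁S h)
  obtain ⟨K, hK1, hK2, hK3, ι, x, g, hSys⟩ := hFIELD d F M ρ c₀ ξ B₁ hd hL (fun s h => by
    have := hs₁ s h
    have h2 : 0 < ρ * M := by positivity
    linarith)
  set R : ℝ := CY' * M ^ (1 - cY) with hR
  have hpY : 1 ≤ M ^ (1 - cY) := Real.one_le_rpow hM1 (by linarith)
  have hR0 : 0 ≤ R := by positivity
  have hCR : CG * (R + 1) ≤ M ^ (1 - c) := by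
    refine le_trans ?_ e2
    rw [hR, mul_assoc]
    have h1 : CY' * M ^ (1 - cY) + 1 ≤ (CY' + 1) * M ^ (1 - cY) := by
      rw [add_mul, one_mul]
      linarith
    exact mul_le_mul_of_nonneg_left h1 (Nat.cast_nonneg _)
  have hcard : ∀ A ⊆ S, ε / 4 < ∑ s ∈ A, m s → M ^ (1 - c) < A.card := by
    intro A hA h
    by_contra hcon
    push Not at hcon
    have := hAC A hA hcon
    linarith
  obtain ⟨Y, S₀, hS₀, hc1, hc2, hc3, hc4⟩ := hG (K ≃ₐ[ℚ] K) g B₁ R (by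
    intro s' hs' Z
    have h1 : CY * M ^ (1 - cY) ≤ R := by
      rw [hR]
      gcongr
    rcases hY F M c₀ ξ B₁ K ι x g hL hMY hs₁ hSys s' hs' Z with h | h
    · exact Or.inl (h.trans h1)
    · exact Or.inr (h.trans h1)) (hCR.trans_lt (hcard B₁ hB₁S (by linarith))) hR0
  have hS₀S : S₀ ⊆ S := hS₀.trans hB₁S
  have hdiff : ∑ s ∈ B₁ \ S₀, m s ≤ M ^ (-c') :=
    hAC _ (sdiff_subset.trans hB₁S) (hc1.trans hCR)
  have hsd : ∑ s ∈ B₁ \ S₀, m s + ∑ s ∈ S₀, m s = ∑ s ∈ B₁, m s := sum_sdiff hS₀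
  set μ : ℝ := ∑ s ∈ S₀, m s with hμ
  have hμ1 : ε / 2 < μ := by linarith
  have hμ0 : 0 < μ := by linarith
  have hS₀ne : S₀.Nonempty := by
    rw [nonempty_iff_ne_empty]
    intro h
    rw [h, sum_empty] at hμ
    linarith
  obtain ⟨s₁, hs₁'⟩ := hS₀ne
  have hs₀ : ∀ s ∈ S₀, |(s : ℝ) - c₀| ≤ ρ * M / 4 := fun s h => hs s (hS₀S h)
  have hSys₀ : Sys d S₀ ξ K ι x g :=
    ⟨fun s h i => hSys.emb s (hS₀ h) i, fun s h γ i => hSys.act s (hS₀ h) γ i⟩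
  obtain ⟨part, π, hp1, hp2⟩ := orbits g Y S₀ s₁ hs₁' hc2 hc3
  have htr : ∀ i j, part i = part j :=
    hO F M c₀ ξ S₀ K ι x g hL hMO hs₀ hSys₀ part π hp1
      (e3.trans_lt (hcard S₀ hS₀S (by linarith)))
  obtain ⟨s, hsS, hfin⟩ := hdu F M ρ c₀ y ξ S₀ (fun s => m s / μ) K ι x g Y hL hρ hMd hMy hs₀
    hSys₀ (fun s h => div_nonneg (hm0 s (hS₀S h)) hμ0.le) (by
      rw [← sum_div, ← hμ, div_self hμ0.ne']) hc2 hc3 (fun i j => hp2 i j (htr i j)) (by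
      intro s' hs' A hA hA'
      rw [← sum_div, div_le_iff₀ hμ0]
      have h1 := hAC A (hA.trans hS₀S) ((hc4 s' hs' A hA hA').trans hCR)
      refine h1.trans ?_
      have h2 : M ^ (-c') = M ^ (-κ) * M ^ (-κ) := by
        rw [← Real.rpow_add hM0]
        congr 1
        rw [hκ]
        ring
      rw [h2]
      exact mul_le_mul_of_nonneg_left (by linarith) (by positivity)) hy
  have h2 := (mem_filter.1 (hB₁B (hS₀ hsS))).2
  linarith

end Pool.Agent.Helper94.EP.CLOW
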