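import Pool.Agent.Helper94.EP.EKUb

/-! # EP/EKU: the uniform central limit theorem (helper94) -/

set_option autoImplicit false

open Finset

namespace Pool.Agent.Helper94.EP

/-! ## The independent model -/

/-- the weight of the set `A` in the independent model -/
noncomputable def wt (P : Finset ℕ) (lam : ℕ → ℝ) (A : Finset ℕ) : ℝ :=
  (∏ p ∈ A, lam p) * ∏ p ∈ P \ A, (1 - lam p)

lemma wt_nonneg {P : Finset ℕ} {lam : ℕ → ℝ} (h : ∀ p ∈ P, 0 ≤ lam p ∧ lam p ≤ 1)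
    {A : Finset ℕ} (hA : A ∈ P.powerset) : 0 ≤ wt P lam A := by
  unfold wt
  refine mul_nonneg (prod_nonneg fun p hp => (h p (mem_powerset.1 hA hp)).1)
    (prod_nonneg fun p hp => ?_)
  linarith [(h p (mem_sdiff.1 hp).1).2]

lemma wt_gen (P : Finset ℕ) (lam : ℕ → ℝ) (x y : ℕ → ℂ) :
    ∑ A ∈ P.powerset, (wt P lam A : ℂ) * ((∏ p ∈ A, x p) * ∏ p ∈ P \ A, y p) =
      ∏ p ∈ P, ((lam p : ℂ) * x p + (1 - (lam p : ℂ)) * y p) := by
  rw [prod_add]
  refine sum_congr rfl fun A _ => ?_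
  unfold wt
  rw [prod_mul_distrib, prod_mul_distrib]
  push_cast
  ring

lemma wt_genR (P : Finset ℕ) (lam : ℕ → ℝ) (x y : ℕ → ℝ) :
    ∑ A ∈ P.powerset, wt P lam A * ((∏ p ∈ A, x p) * ∏ p ∈ P \ A, y p) =
      ∏ p ∈ P, (lam p * x p + (1 - lam p) * y p) := by
  rw [prod_add]
  refine sum_congr rfl fun A _ => ?_
  unfold wt
  rw [prod_mul_distrib, prod_mul_distrib]
  ring

/-- the probability of containing `Q` -/
lemma wt_contain (P : Finset ℕ) (lam : ℕ → ℝ) (Q : Finset ℕ) (hQ : Q ⊆ P) :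
    ∑ A ∈ P.powerset, wt P lam A * (if Q ⊆ A then 1 else 0) = ∏ p ∈ Q, lam p := by
  have h1 := wt_genR P lam (fun _ => 1) (fun p => if p ∈ Q then 0 else 1)
  have h2 : ∀ A ∈ P.powerset, (if Q ⊆ A then (1 : ℝ) else 0) =
      (∏ _p ∈ A, (1 : ℝ)) * ∏ p ∈ P \ A, (if p ∈ Q then (0 : ℝ) else 1) := by
    intro A _
    rw [prod_const_one, one_mul]
    by_cases h : Q ⊆ A
    · rw [if_pos h]
      refine (prod_eq_one fun p hp => ?_).symm
      rw [if_neg fun hpQ => (mem_sdiff.1 hp).2 (h hpQ)]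
    · rw [if_neg h]
      obtain ⟨p, hpQ, hpA⟩ := not_subset.1 h
      have h3 : (if p ∈ Q then (0 : ℝ) else 1) = 0 := if_pos hpQ
      exact (prod_eq_zero (f := fun p => if p ∈ Q then (0 : ℝ) else 1)
        (mem_sdiff.2 ⟨hQ hpQ, hpA⟩) h3).symm
  rw [sum_congr rfl fun A hA => by rw [h2 A hA], h1]
  rw [← prod_sdiff hQ]
  have h3 : ∏ p ∈ P \ Q, (lam p * 1 + (1 - lam p) * (if p ∈ Q then (0 : ℝ) else 1)) = 1 := by
    refine prod_eq_one fun p hp => ?_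
    rw [if_neg (mem_sdiff.1 hp).2]
    ring
  rw [h3, one_mul]
  refine prod_congr rfl fun p hp => ?_
  rw [if_pos hp]
  ring

lemma expo (P : Finset ℕ) (lam : ℕ → ℝ) (A : Finset ℕ) (hA : A ⊆ P) (u : ℝ) :
    ∑ p ∈ A, u * (1 - lam p) + ∑ p ∈ P \ A, (-(u * lam p)) =
      u * ((A.card : ℝ) - ∑ p ∈ P, lam p) := by
  rw [← sum_sdiff hA (f := lam), sum_neg_distrib, ← mul_sum, ← mul_sum, sum_sub_distrib, sum_const,
    nsmul_eq_mul, mul_one]
  ring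

/-- the exponential moments of the model -/
lemma expmom (P : Finset ℕ) (lam : ℕ → ℝ) (h : ∀ p ∈ P, 0 ≤ lam p ∧ lam p ≤ 1) (u : ℝ)
    (hu : |u| ≤ 1) :
    ∑ A ∈ P.powerset, wt P lam A * Real.exp (u * ((A.card : ℝ) - ∑ p ∈ P, lam p)) ≤
      Real.exp (u ^ 2 * ∑ p ∈ P, lam p * (1 - lam p)) := by
  have h1 := wt_genR P lam (fun p => Real.exp (u * (1 - lam p))) (fun p => Real.exp (-(u * lam p)))
  have h2 : ∀ A ∈ P.powerset, Real.exp (u * ((A.card : ℝ) - ∑ p ∈ P, lam p)) =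
      (∏ p ∈ A, Real.exp (u * (1 - lam p))) * ∏ p ∈ P \ A, Real.exp (-(u * lam p)) := by
    intro A hA
    rw [← Real.exp_sum, ← Real.exp_sum, ← Real.exp_add, expo P lam A (mem_powerset.1 hA)]
  rw [sum_congr rfl fun A hA => by rw [h2 A hA], h1, mul_sum, Real.exp_sum]
  refine prod_le_prod (fun p hp => ?_) fun p hp => ?_
  · have := h p hp
    have h3 : 0 ≤ 1 - lam p := by linarith
    exact add_nonneg (mul_nonneg this.1 (Real.exp_pos _).le) (mul_nonneg h3 (Real.exp_pos _).le)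
  · obtain ⟨h3, h4⟩ := h p hp
    have h5 : |u * (1 - lam p)| ≤ 1 := by
      rw [abs_mul, abs_of_nonneg (by linarith : (0 : ℝ) ≤ 1 - lam p)]
      exact mul_le_one₀ hu (by linarith) (by linarith)
    have h6 : |-(u * lam p)| ≤ 1 := by
      rw [abs_neg, abs_mul, abs_of_nonneg h3]
      exact mul_le_one₀ hu h3 h4
    have h7 := (abs_le.1 (Real.abs_exp_sub_one_sub_id_le h5)).2
    have h8 := (abs_le.1 (Real.abs_exp_sub_one_sub_id_le h6)).2
    have h9 : Real.exp (u * (1 - lam p)) ≤ 1 + u * (1 - lam p) + (u * (1 - lam p)) ^ 2 := by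
      linarith
    have h10 : Real.exp (-(u * lam p)) ≤ 1 + -(u * lam p) + (-(u * lam p)) ^ 2 := by linarith
    have h11 : (0 : ℝ) ≤ 1 - lam p := by linarith
    calc lam p * Real.exp (u * (1 - lam p)) + (1 - lam p) * Real.exp (-(u * lam p)) ≤
        lam p * (1 + u * (1 - lam p) + (u * (1 - lam p)) ^ 2) +
          (1 - lam p) * (1 + -(u * lam p) + (-(u * lam p)) ^ 2) :=
          add_le_add (mul_le_mul_of_nonneg_left h9 h3) (mul_le_mul_of_nonneg_left h10 h11)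
      _ = u ^ 2 * (lam p * (1 - lam p)) + 1 := by ring
      _ ≤ _ := Real.add_one_le_exp _

/-- the even moments of the model -/
lemma evenmom (P : Finset ℕ) (lam : ℕ → ℝ) (h : ∀ p ∈ P, 0 ≤ lam p ∧ lam p ≤ 1) (t σ : ℝ)
    (hσ : 0 < σ) (hσ2 : σ ^ 2 = ∑ p ∈ P, lam p * (1 - lam p)) (ht : 2 * |t| ≤ σ) (k : ℕ)
    (hk : Even k) :
    |t| ^ k * (∑ A ∈ P.powerset, wt P lam A * (((A.card : ℝ) - ∑ p ∈ P, lam p) / σ) ^ k) /
      k.factorial ≤ (1 / 2) ^ k * (2 * Real.exp (4 * t ^ 2)) := by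
  set u : ℝ := 2 * |t| / σ with hu
  have hu0 : 0 ≤ u := by positivity
  have hu1 : |u| ≤ 1 := by
    rw [abs_of_nonneg hu0, hu, div_le_one hσ]
    exact ht
  have e1 := expmom P lam h u hu1
  have e2 := expmom P lam h (-u) (by rw [abs_neg]; exact hu1)
  have e3 : u ^ 2 * ∑ p ∈ P, lam p * (1 - lam p) = 4 * t ^ 2 := by
    rw [← hσ2, hu, div_pow, mul_pow, sq_abs]
    field_simp
    ring
  rw [e3] at e1
  rw [neg_sq, e3] at e2
  have key : ∀ A ∈ P.powerset, (|t| ^ k * (((A.card : ℝ) - ∑ p ∈ P, lam p) / σ) ^ k) /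
      k.factorial ≤ (1 / 2) ^ k * (Real.exp (u * ((A.card : ℝ) - ∑ p ∈ P, lam p)) +
        Real.exp (-u * ((A.card : ℝ) - ∑ p ∈ P, lam p))) := by
    intro A _
    set x : ℝ := u * ((A.card : ℝ) - ∑ p ∈ P, lam p) with hx
    have h1 : |t| ^ k * (((A.card : ℝ) - ∑ p ∈ P, lam p) / σ) ^ k = (1 / 2) ^ k * x ^ k := by
      rw [← mul_pow, ← mul_pow]
      congr 1
      rw [hx, hu]
      ring
    have h2 : x ^ k / k.factorial ≤ Real.exp |x| := by
      rw [← hk.pow_abs]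
      exact Real.pow_div_factorial_le_exp |x| (abs_nonneg x) k
    have h3 : Real.exp |x| ≤ Real.exp x + Real.exp (-x) := by
      rcases abs_choice x with h | h <;> rw [h]
      · linarith [Real.exp_pos (-x)]
      · linarith [Real.exp_pos x]
    rw [h1, neg_mul, ← hx, mul_div_assoc]
    exact mul_le_mul_of_nonneg_left (h2.trans h3) (by positivity)
  have h4 : |t| ^ k * (∑ A ∈ P.powerset, wt P lam A * (((A.card : ℝ) - ∑ p ∈ P, lam p) / σ) ^ k) /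
      k.factorial = ∑ A ∈ P.powerset, wt P lam A *
        ((|t| ^ k * (((A.card : ℝ) - ∑ p ∈ P, lam p) / σ) ^ k) / k.factorial) := by
    rw [mul_sum, sum_div]
    refine sum_congr rfl fun A _ => ?_
    ring
  rw [h4]
  calc ∑ A ∈ P.powerset, wt P lam A *
        ((|t| ^ k * (((A.card : ℝ) - ∑ p ∈ P, lam p) / σ) ^ k) / k.factorial) ≤
      ∑ A ∈ P.powerset, wt P lam A * ((1 / 2) ^ k *
        (Real.exp (u * ((A.card : ℝ) - ∑ p ∈ P, lam p)) +
        Real.exp (-u * ((A.card : ℝ) - ∑ p ∈ P, lam p)))) :=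
        sum_le_sum fun A hA => mul_le_mul_of_nonneg_left (key A hA) (wt_nonneg h hA)
    _ = (1 / 2) ^ k * (∑ A ∈ P.powerset, wt P lam A *
          Real.exp (u * ((A.card : ℝ) - ∑ p ∈ P, lam p)) + ∑ A ∈ P.powerset, wt P lam A *
          Real.exp (-u * ((A.card : ℝ) - ∑ p ∈ P, lam p))) := by
        rw [← sum_add_distrib, mul_sum]
        refine sum_congr rfl fun A _ => ?_
        ring
    _ ≤ (1 / 2) ^ k * (Real.exp (4 * t ^ 2) + Real.exp (4 * t ^ 2)) :=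
        mul_le_mul_of_nonneg_left (add_le_add e1 e2) (by positivity)
    _ = _ := by ring

/-! ## The characteristic function of the model -/

lemma prod_sub_prod (P : Finset ℕ) (f g : ℕ → ℂ) (hf : ∀ p ∈ P, ‖f p‖ ≤ 1)
    (hg : ∀ p ∈ P, ‖g p‖ ≤ 1) : ‖∏ p ∈ P, f p - ∏ p ∈ P, g p‖ ≤ ∑ p ∈ P, ‖f p - g p‖ := by
  induction P using Finset.induction_on with
  | empty => simp
  | insert a s ha ih =>
    rw [prod_insert ha, prod_insert ha, sum_insert ha]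
    have h1 : ‖∏ p ∈ s, f p‖ ≤ 1 := by
      rw [norm_prod]
      exact prod_le_one (fun _ _ => norm_nonneg _) fun p hp => hf p (mem_insert_of_mem hp)
    have h2 := ih (fun p hp => hf p (mem_insert_of_mem hp)) fun p hp => hg p (mem_insert_of_mem hp)
    have h3 : f a * ∏ p ∈ s, f p - g a * ∏ p ∈ s, g p =
        (f a - g a) * ∏ p ∈ s, f p + g a * (∏ p ∈ s, f p - ∏ p ∈ s, g p) := by ring
    rw [h3]
    refine (norm_add_le _ _).trans ?_
    rw [norm_mul, norm_mul]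
    refine add_le_add ?_ ?_
    · calc ‖f a - g a‖ * ‖∏ p ∈ s, f p‖ ≤ ‖f a - g a‖ * 1 :=
          mul_le_mul_of_nonneg_left h1 (norm_nonneg _)
        _ = _ := mul_one _
    · calc ‖g a‖ * ‖∏ p ∈ s, f p - ∏ p ∈ s, g p‖ ≤ 1 * ‖∏ p ∈ s, f p - ∏ p ∈ s, g p‖ :=
          mul_le_mul_of_nonneg_right (hg a (mem_insert_self a s)) (norm_nonneg _)
        _ ≤ _ := by rw [one_mul]; exact h2

lemma TP3 (x : ℝ) : TP 3 x = 1 + x * Complex.I - (x : ℂ) ^ 2 / 2 := by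
  unfold TP
  rw [sum_range_succ, sum_range_succ, sum_range_succ, sum_range_zero]
  simp only [Nat.factorial, pow_zero, pow_one, mul_pow, Complex.I_sq]
  push_cast
  ring

lemma factor (l u : ℝ) (h0 : 0 ≤ l) (h1 : l ≤ 1) (hu : |u| ≤ 1) :
    ‖((l : ℂ) * Complex.exp ((u * (1 - l) : ℝ) * Complex.I) +
      (1 - (l : ℂ)) * Complex.exp ((-(u * l) : ℝ) * Complex.I)) -
      (Real.exp (-(u ^ 2 * (l * (1 - l)) / 2)) : ℂ)‖ ≤ |u| ^ 3 * (l * (1 - l)) := by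
  have hl : 0 ≤ 1 - l := by linarith
  have hv : 0 ≤ l * (1 - l) := mul_nonneg h0 hl
  have hv4 : l * (1 - l) ≤ 1 / 4 := by nlinarith [sq_nonneg (l - 1 / 2)]
  have e1 : ∀ x : ℝ, Complex.exp (x * Complex.I) = TP 3 x + RT 3 x := by
    intro x; unfold RT; ring
  rw [e1, e1, TP3, TP3]
  set R1 := RT 3 (u * (1 - l)) with hR1
  set R2 := RT 3 (-(u * l)) with hR2
  have hb1 : ‖R1‖ ≤ |u| ^ 3 * (1 - l) ^ 3 / 6 := by
    have := RT_le 3 (u * (1 - l))
    rw [abs_mul, abs_of_nonneg hl, mul_pow] at this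
    simpa [Nat.factorial] using this
  have hb2 : ‖R2‖ ≤ |u| ^ 3 * l ^ 3 / 6 := by
    have := RT_le 3 (-(u * l))
    rw [abs_neg, abs_mul, abs_of_nonneg h0, mul_pow] at this
    simpa [Nat.factorial] using this
  set x : ℝ := u ^ 2 * (l * (1 - l)) / 2 with hx
  have hu2 : u ^ 2 ≤ 1 := by
    rw [← sq_abs]
    exact pow_le_one₀ (abs_nonneg u) hu
  have hx0 : 0 ≤ x := by positivity
  have hx1 : x ≤ 1 := by
    have : u ^ 2 * (l * (1 - l)) ≤ 1 * (1 / 4) := mul_le_mul hu2 hv4 hv zero_le_one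
    rw [hx]; linarith
  have h3 := Real.abs_exp_sub_one_sub_id_le (x := -x) (by rw [abs_neg, abs_of_nonneg hx0]; exact hx1)
  have h4 : ((l : ℂ) * (1 + ((u * (1 - l) : ℝ) : ℂ) * Complex.I - ((u * (1 - l) : ℝ) : ℂ) ^ 2 / 2 +
      R1) + (1 - (l : ℂ)) * (1 + ((-(u * l) : ℝ) : ℂ) * Complex.I -
        ((-(u * l) : ℝ) : ℂ) ^ 2 / 2 + R2)) - (Real.exp (-x) : ℂ) =
      (l : ℂ) * R1 + ((1 - l : ℝ) : ℂ) * R2 - ((Real.exp (-x) - 1 - (-x) : ℝ) : ℂ) := by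
    rw [hx]
    push_cast
    ring
  rw [h4]
  have h5 : ‖(l : ℂ) * R1‖ ≤ l * (|u| ^ 3 * (1 - l) ^ 3 / 6) := by
    rw [norm_mul, Complex.norm_real, Real.norm_of_nonneg h0]
    exact mul_le_mul_of_nonneg_left hb1 h0
  have h6 : ‖((1 - l : ℝ) : ℂ) * R2‖ ≤ (1 - l) * (|u| ^ 3 * l ^ 3 / 6) := by
    rw [norm_mul, Complex.norm_real, Real.norm_of_nonneg hl]
    exact mul_le_mul_of_nonneg_left hb2 hl
  have h7 : ‖((Real.exp (-x) - 1 - (-x) : ℝ) : ℂ)‖ ≤ x ^ 2 := by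
    rw [Complex.norm_real, Real.norm_eq_abs]
    refine h3.trans ?_
    rw [neg_sq]
  have h8 : x ^ 2 ≤ |u| ^ 3 * (l * (1 - l)) / 16 := by
    have h9 : u ^ 4 ≤ |u| ^ 3 := by
      have : u ^ 4 = |u| ^ 4 := by
        rw [(by decide : Even 4).pow_abs]
      rw [this]
      exact pow_le_pow_of_le_one (abs_nonneg u) hu (by norm_num)
    have h10 : (l * (1 - l)) ^ 2 ≤ l * (1 - l) / 4 := by nlinarith
    calc x ^ 2 = u ^ 4 * (l * (1 - l)) ^ 2 / 4 := by rw [hx]; ring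
      _ ≤ |u| ^ 3 * (l * (1 - l) / 4) / 4 := by
          have := mul_le_mul h9 h10 (by positivity) (by positivity)
          linarith
      _ = _ := by ring
  have h11 : l * (|u| ^ 3 * (1 - l) ^ 3 / 6) + (1 - l) * (|u| ^ 3 * l ^ 3 / 6) ≤
      |u| ^ 3 * (l * (1 - l)) / 6 := by
    have h12 : (1 - l) ^ 2 + l ^ 2 ≤ 1 := by nlinarith
    have h13 : 0 ≤ |u| ^ 3 * (l * (1 - l)) := by positivity
    calc l * (|u| ^ 3 * (1 - l) ^ 3 / 6) + (1 - l) * (|u| ^ 3 * l ^ 3 / 6) =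
        |u| ^ 3 * (l * (1 - l)) * ((1 - l) ^ 2 + l ^ 2) / 6 := by ring
      _ ≤ |u| ^ 3 * (l * (1 - l)) * 1 / 6 := by
          have := mul_le_mul_of_nonneg_left h12 h13
          linarith
      _ = _ := by ring
  have h14 : 0 ≤ |u| ^ 3 * (l * (1 - l)) := by positivity
  calc ‖(l : ℂ) * R1 + ((1 - l : ℝ) : ℂ) * R2 - ((Real.exp (-x) - 1 - (-x) : ℝ) : ℂ)‖ ≤
      ‖(l : ℂ) * R1‖ + ‖((1 - l : ℝ) : ℂ) * R2‖ + ‖((Real.exp (-x) - 1 - (-x) : ℝ) : ℂ)‖ :=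
        (norm_sub_le _ _).trans (add_le_add (norm_add_le _ _) le_rfl)
    _ ≤ _ := by linarith

/-- the characteristic function of the model -/
lemma charmodel (P : Finset ℕ) (lam : ℕ → ℝ) (h : ∀ p ∈ P, 0 ≤ lam p ∧ lam p ≤ 1) (t σ : ℝ)
    (hσ : 0 < σ) (hσ2 : σ ^ 2 = ∑ p ∈ P, lam p * (1 - lam p)) (ht : |t| ≤ σ) :
    ‖∑ A ∈ P.powerset, (wt P lam A : ℂ) *
      Complex.exp ((t * (((A.card : ℝ) - ∑ p ∈ P, lam p) / σ) : ℝ) * Complex.I) -
      (Real.exp (-(t ^ 2 / 2)) : ℂ)‖ ≤ |t| ^ 3 / σ := by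
  set u : ℝ := t / σ with hu
  have hu1 : |u| ≤ 1 := by
    rw [hu, abs_div, abs_of_pos hσ, div_le_one hσ]
    exact ht
  have h1 := wt_gen P lam (fun p => Complex.exp ((u * (1 - lam p) : ℝ) * Complex.I))
    (fun p => Complex.exp ((-(u * lam p) : ℝ) * Complex.I))
  have h2 : ∀ A ∈ P.powerset,
      Complex.exp ((t * (((A.card : ℝ) - ∑ p ∈ P, lam p) / σ) : ℝ) * Complex.I) =
      (∏ p ∈ A, Complex.exp ((u * (1 - lam p) : ℝ) * Complex.I)) *
        ∏ p ∈ P \ A, Complex.exp ((-(u * lam p) : ℝ) * Complex.I) := by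
    intro A hA
    rw [← Complex.exp_sum, ← Complex.exp_sum, ← Complex.exp_add, ← sum_mul, ← sum_mul, ← add_mul,
      ← Complex.ofReal_sum, ← Complex.ofReal_sum, ← Complex.ofReal_add,
      expo P lam A (mem_powerset.1 hA)]
    congr 3
    rw [hu]
    ring
  rw [sum_congr rfl fun A hA => by rw [h2 A hA], h1]
  have h3 : (Real.exp (-(t ^ 2 / 2)) : ℂ) =
      ∏ p ∈ P, (Real.exp (-(u ^ 2 * (lam p * (1 - lam p)) / 2)) : ℂ) := by
    rw [← Complex.ofReal_prod, ← Real.exp_sum]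
    congr 2
    rw [sum_neg_distrib, ← sum_div, ← mul_sum, ← hσ2, hu]
    field_simp
  rw [h3]
  refine (prod_sub_prod P _ _ (fun p hp => ?_) fun p hp => ?_).trans ?_
  · obtain ⟨h4, h5⟩ := h p hp
    refine (norm_add_le _ _).trans ?_
    rw [norm_mul, norm_mul, Complex.norm_exp_ofReal_mul_I, Complex.norm_exp_ofReal_mul_I,
      Complex.norm_real, Real.norm_of_nonneg h4, ← Complex.ofReal_one, ← Complex.ofReal_sub,
      Complex.norm_real, Real.norm_of_nonneg (by linarith)]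
    linarith
  · obtain ⟨h4, h5⟩ := h p hp
    rw [Complex.norm_real, Real.norm_of_nonneg (Real.exp_pos _).le]
    rw [Real.exp_le_one_iff]
    have : 0 ≤ lam p * (1 - lam p) := mul_nonneg h4 (by linarith)
    have : 0 ≤ u ^ 2 * (lam p * (1 - lam p)) := by positivity
    linarith
  · have h6 : ∀ p ∈ P, ‖((lam p : ℂ) * Complex.exp ((u * (1 - lam p) : ℝ) * Complex.I) +
        (1 - (lam p : ℂ)) * Complex.exp ((-(u * lam p) : ℝ) * Complex.I)) -
        (Real.exp (-(u ^ 2 * (lam p * (1 - lam p)) / 2)) : ℂ)‖ ≤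
        |u| ^ 3 * (lam p * (1 - lam p)) := fun p hp => factor _ _ (h p hp).1 (h p hp).2 hu1
    refine (sum_le_sum h6).trans ?_
    rw [← mul_sum, ← hσ2, hu, abs_div, abs_of_pos hσ]
    refine le_of_eq ?_
    field_simp

/-! ## The theorem -/

theorem main : Pool.Agent.Helper20.EP.S_EKU := by
  intro t ε hε
  -- the order of the moments
  obtain ⟨m, hm⟩ : ∃ m : ℕ, (1 / 4 : ℝ) ^ m < ε / 4 / (4 * Real.exp (4 * t ^ 2)) :=
    exists_pow_lt_of_lt_one (by positivity) (by norm_num)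
  set k : ℕ := 2 * m with hk
  have hkE : Even k := ⟨m, by rw [hk]; ring⟩
  have hkε : 2 * ((1 / 2 : ℝ) ^ k * (2 * Real.exp (4 * t ^ 2))) ≤ ε / 4 := by
    have h1 : (1 / 2 : ℝ) ^ k = (1 / 4) ^ m := by
      rw [hk, pow_mul]
      norm_num
    rw [h1]
    have h2 := (lt_div_iff₀ (by positivity)).1 hm
    linarith
  refine ⟨k, 1 + 2 * |t| + 4 * |t| ^ 3 / ε, ε / (8 * Real.exp (2 * |t|)), by positivity,
    by positivity, ?_⟩
  intro Ω v P lam hΩ hlam hσ0 hQ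
  set δ : ℝ := ε / (8 * Real.exp (2 * |t|)) with hδ
  have hδ0 : 0 ≤ δ := by positivity
  set V : ℝ := ∑ p ∈ P, lam p * (1 - lam p) with hV
  set σ : ℝ := Real.sqrt V with hσ
  set L : ℝ := ∑ p ∈ P, lam p with hL
  have ht3 : 0 ≤ 4 * |t| ^ 3 / ε := by positivity
  have hta : 0 ≤ |t| := abs_nonneg t
  have hσ1 : 1 ≤ σ := by linarith
  have hσp : 0 < σ := by linarith
  have hσt : 2 * |t| ≤ σ := by linarith
  have hσt1 : |t| ≤ σ := by linarith
  have hσ3 : |t| ^ 3 / σ ≤ ε / 4 := by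
    have h1 : 4 * |t| ^ 3 / ε ≤ σ := by linarith
    rw [div_le_iff₀ hσp]
    have h2 := (div_le_iff₀ hε).1 h1
    linarith
  have hσ2 : σ ^ 2 = V := by
    rw [hσ]
    refine Real.sq_sqrt ?_
    rw [hV]
    exact sum_nonneg fun p hp => mul_nonneg (hlam p hp).1 (by linarith [(hlam p hp).2])
  have hL0 : 0 ≤ L := sum_nonneg fun p hp => (hlam p hp).1
  have hL1 : L ≤ P.card := by
    rw [hL]
    calc ∑ p ∈ P, lam p ≤ ∑ _p ∈ P, (1 : ℝ) := sum_le_sum fun p hp => (hlam p hp).2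
      _ = P.card := by simp
  have hΩ0 : (0 : ℝ) < Ω.card := by exact_mod_cast Finset.card_pos.2 hΩ
  -- the comparison of the two families
  have hcontain : ∀ Q ⊆ P, Q.card ≤ k →
      |∑ n ∈ Ω, ((Ω.card : ℝ)⁻¹) * (if Q ⊆ P.filter (fun p : ℕ => (p : ℤ) ∣ v n) then 1 else 0) -
        ∑ A ∈ P.powerset, wt P lam A * (if Q ⊆ A then 1 else 0)| ≤
          δ / (1 + (P.card : ℝ)) ^ k := by
    intro Q hQP hQk
    rw [wt_contain P lam Q hQP]
    have h1 : ∑ n ∈ Ω, ((Ω.card : ℝ)⁻¹) *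
        (if Q ⊆ P.filter (fun p : ℕ => (p : ℤ) ∣ v n) then (1 : ℝ) else 0) =
        (Ω.card : ℝ)⁻¹ * ((Ω.filter fun n => ∀ p ∈ Q, (p : ℤ) ∣ v n).card : ℝ) := by
      rw [← mul_sum]
      congr 1
      rw [← sum_filter, sum_const, nsmul_eq_mul, mul_one]
      congr 2
      refine filter_congr fun n _ => ?_
      constructor
      · intro h p hp
        exact (mem_filter.1 (h hp)).2
      · intro h p hp
        exact mem_filter.2 ⟨hQP hp, h p hp⟩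
    rw [h1]
    have h2 := hQ Q hQP hQk
    have h3 : (Ω.card : ℝ)⁻¹ * ((Ω.filter fun n => ∀ p ∈ Q, (p : ℤ) ∣ v n).card : ℝ) -
        ∏ p ∈ Q, lam p = (Ω.card : ℝ)⁻¹ *
          (((Ω.filter fun n => ∀ p ∈ Q, (p : ℤ) ∣ v n).card : ℝ) - Ω.card * ∏ p ∈ Q, lam p) := by
      field_simp
    rw [h3, abs_mul, abs_of_pos (inv_pos.2 hΩ0)]
    calc (Ω.card : ℝ)⁻¹ * |((Ω.filter fun n => ∀ p ∈ Q, (p : ℤ) ∣ v n).card : ℝ) -
          Ω.card * ∏ p ∈ Q, lam p| ≤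
        (Ω.card : ℝ)⁻¹ * (δ * Ω.card / (1 + (P.card : ℝ)) ^ k) :=
          mul_le_mul_of_nonneg_left h2 (inv_pos.2 hΩ0).le
      _ = _ := by field_simp
  have hmom : ∀ j ≤ k, |∑ n ∈ Ω, ((Ω.card : ℝ)⁻¹) *
      ((((P.filter fun p : ℕ => (p : ℤ) ∣ v n).card : ℝ) - L) / σ) ^ j -
      ∑ A ∈ P.powerset, wt P lam A * (((A.card : ℝ) - L) / σ) ^ j| ≤ 2 ^ j * δ :=
    fun j hj => moments' Ω P.powerset (fun _ => (Ω.card : ℝ)⁻¹) (wt P lam) P
      (fun n => P.filter fun p : ℕ => (p : ℤ) ∣ v n) (fun A => A) (fun n _ => filter_subset _ _)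
      (fun A hA => mem_powerset.1 hA) k δ hδ0 hcontain L σ hL0 hL1 hσ1 j hj
  have hcmp := compare Ω P.powerset (fun _ => (Ω.card : ℝ)⁻¹) (wt P lam)
    (fun n => (((P.filter fun p : ℕ => (p : ℤ) ∣ v n).card : ℝ) - L) / σ)
    (fun A => ((A.card : ℝ) - L) / σ) (fun n _ => (inv_pos.2 hΩ0).le)
    (fun A hA => wt_nonneg hlam hA) t δ _ k hkE hδ0 hmom
    (evenmom P lam hlam t σ hσp hσ2 hσt k hkE)
  have hchar := charmodel P lam hlam t σ hσp hσ2 hσt1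
  have hδε : 2 * Real.exp (2 * |t|) * δ = ε / 4 := by
    rw [hδ]
    field_simp
    norm_num
  -- the final form
  have hfin : (∑ n ∈ Ω, Complex.exp (t * Complex.I *
        ((((P.filter fun p : ℕ => (p : ℤ) ∣ v n).card : ℝ) - L) / σ : ℝ))) / (Ω.card : ℂ) =
      ∑ n ∈ Ω, ((((Ω.card : ℝ)⁻¹ : ℝ)) : ℂ) * Complex.exp ((t *
        ((((P.filter fun p : ℕ => (p : ℤ) ∣ v n).card : ℝ) - L) / σ) : ℝ) * Complex.I) := by
    rw [← mul_sum, div_eq_inv_mul]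
    push_cast
    congr 1
    refine sum_congr rfl fun n _ => ?_
    congr 1
    ring
  have hG : Complex.exp (-(t : ℂ) ^ 2 / 2) = (Real.exp (-(t ^ 2 / 2)) : ℂ) := by
    push_cast
    congr 1
    ring
  rw [hfin, hG]
  calc _ ≤ ‖∑ n ∈ Ω, ((((Ω.card : ℝ)⁻¹ : ℝ)) : ℂ) * Complex.exp ((t *
        ((((P.filter fun p : ℕ => (p : ℤ) ∣ v n).card : ℝ) - L) / σ) : ℝ) * Complex.I) -
        ∑ A ∈ P.powerset, (wt P lam A : ℂ) *
          Complex.exp ((t * (((A.card : ℝ) - L) / σ) : ℝ) * Complex.I)‖ +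
        ‖∑ A ∈ P.powerset, (wt P lam A : ℂ) *
          Complex.exp ((t * (((A.card : ℝ) - L) / σ) : ℝ) * Complex.I) -
          (Real.exp (-(t ^ 2 / 2)) : ℂ)‖ := norm_sub_le_norm_sub_add_norm_sub _ _ _
    _ ≤ (2 * Real.exp (2 * |t|) * δ + 2 * ((1 / 2) ^ k * (2 * Real.exp (4 * t ^ 2)))) +
        |t| ^ 3 / σ := add_le_add hcmp hchar
    _ ≤ ε := by linarith

end Pool.Agent.Helper94.EP
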