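import Pool.Agent.Helper94.EP.PSum

/-! # EP/CLOW: preparations (helper94) -/

set_option autoImplicit false

open Finset Polynomial

namespace Pool.Agent.Helper94.EP

open Pool.Agent.Helper20.EP

/-! ## Number of roots -/

lemma rho_le {g : ℤ[X]} (hg : g.Monic) {p : ℕ} (hp : p.Prime) : rho g p ≤ g.natDegree := by
  classical
  haveI : Fact p.Prime := ⟨hp⟩
  have hm : (g.map (Int.castRingHom (ZMod p))) ≠ 0 := (hg.map _).ne_zero
  have h1 : rho g p ≤ ((g.map (Int.castRingHom (ZMod p))).roots.toFinset).card := by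
    unfold rho
    refine card_le_card_of_injOn (fun x : ℕ => (x : ZMod p)) ?_ ?_
    · intro x hx
      have hx' := (mem_filter.1 (mem_coe.1 hx)).2
      rw [mem_coe, Multiset.mem_toFinset, mem_roots hm, IsRoot.def]
      have h2 : ((x : ℤ) : ZMod p) = (x : ZMod p) := by simp
      beta_reduce
      rw [← h2, ← eq_intCast (Int.castRingHom (ZMod p)), eval_map, eval₂_at_apply,
        eq_intCast, ZMod.intCast_zmod_eq_zero_iff_dvd]
      exact hx'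
    · intro x hx y hy hxy
      have hx' := mem_range.1 (mem_filter.1 (mem_coe.1 hx)).1
      have hy' := mem_range.1 (mem_filter.1 (mem_coe.1 hy)).1
      have h3 := congrArg ZMod.val hxy
      simp only [ZMod.val_natCast] at h3
      rwa [Nat.mod_eq_of_lt hx', Nat.mod_eq_of_lt hy'] at h3
  refine h1.trans ((Multiset.toFinset_card_le _).trans ((card_roots' _).trans ?_))
  exact natDegree_map_le

/-! ## The labelled roots -/

section lab

variable {d : ℕ} {F : ℤ[X]} {M ρ c₀ : ℝ} {ξ : Fin d → ℂ → ℂ}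

lemma mem_ball_of {s : ℤ} (h0 : 0 < ρ * M) (h : |(s : ℝ) - c₀| ≤ ρ * M / 4) :
    (s : ℂ) ∈ Metric.ball (c₀ : ℂ) (ρ * M) := by
  rw [Metric.mem_ball, dist_eq_norm]
  have h1 : (s : ℂ) - (c₀ : ℂ) = (((s : ℝ) - c₀ : ℝ) : ℂ) := by push_cast; ring
  rw [h1, Complex.norm_real, Real.norm_eq_abs]
  linarith

lemma mon_map (hMON : S_MON) (hd : 1 ≤ d) (hL : Lab d F M ρ c₀ ξ) {s : ℤ}
    (hs : (s : ℂ) ∈ Metric.ball (c₀ : ℂ) (ρ * M)) :
    (mon F s).map (Int.castRingHom ℂ) = ∏ i, (X - C (ξ i (s : ℂ))) := by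
  rw [(hMON F s (by rw [hL.deg]; exact hd)).2.2.1]
  exact hL.roots _ hs

lemma mon_monic (hMON : S_MON) (hd : 1 ≤ d) (hL : Lab d F M ρ c₀ ξ) (s : ℤ) :
    (mon F s).Monic := (hMON F s (by rw [hL.deg]; exact hd)).1

lemma mon_deg (hMON : S_MON) (hd : 1 ≤ d) (hL : Lab d F M ρ c₀ ξ) (s : ℤ) :
    (mon F s).natDegree = d := by
  rw [(hMON F s (by rw [hL.deg]; exact hd)).2.1, hL.deg]

lemma rootsLE_mon (hMON : S_MON) (hd : 1 ≤ d) (hL : Lab d F M ρ c₀ ξ) {s : ℤ}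
    (hs : (s : ℂ) ∈ Metric.ball (c₀ : ℂ) (ρ * M)) : RootsLE (mon F s) (M ^ 3) := by
  intro z hz
  have h1 : ((mon F s).map (Int.castRingHom ℂ)).eval z = 0 := by
    rw [eval_map]
    have h2 : aeval z (mon F s) = (mon F s).eval₂ (Int.castRingHom ℂ) z := by
      rw [aeval_def]
      rfl
    rw [← h2]
    exact hz
  rw [mon_map hMON hd hL hs, eval_prod, prod_eq_zero_iff] at h1
  obtain ⟨i, _, hi⟩ := h1
  rw [eval_sub, eval_X, eval_C, sub_eq_zero] at hi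
  rw [hi]
  exact hL.bd i _ hs

variable {S : Finset ℤ} {K : Type} [Field K] [NumberField K] {ι : K →+* ℂ} {x : ℤ → Fin d → K}
  {g : ℤ → (K ≃ₐ[ℚ] K) →* Equiv.Perm (Fin d)}

lemma injx (hL : Lab d F M ρ c₀ ξ) (hS : Sys d S ξ K ι x g) {s : ℤ} (hs : s ∈ S)
    (hb : (s : ℂ) ∈ Metric.ball (c₀ : ℂ) (ρ * M)) : Function.Injective (x s) := by
  intro i j hij
  refine hL.inj _ hb ?_
  simp only
  rw [← hS.emb s hs i, ← hS.emb s hs j, hij]

lemma mapx (hMON : S_MON) (hd : 1 ≤ d) (hL : Lab d F M ρ c₀ ξ) (hS : Sys d S ξ K ι x g) {s : ℤ}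
    (hs : s ∈ S) (hb : (s : ℂ) ∈ Metric.ball (c₀ : ℂ) (ρ * M)) :
    (mon F s).map (algebraMap ℤ K) = ∏ i, (X - C (x s i)) := by
  have hinj : Function.Injective (Polynomial.map ι) := Polynomial.map_injective ι ι.injective
  apply hinj
  rw [Polynomial.map_map, Polynomial.map_prod]
  have h1 : ι.comp (algebraMap ℤ K) = Int.castRingHom ℂ := RingHom.ext_int _ _
  rw [h1, mon_map hMON hd hL hb]
  refine prod_congr rfl fun i _ => ?_
  rw [Polynomial.map_sub, Polynomial.map_X, Polynomial.map_C, hS.emb s hs i]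

lemma rho_frob (hMON : S_MON) (hd : 1 ≤ d) (hL : Lab d F M ρ c₀ ξ) (hS : Sys d S ξ K ι x g)
    (hM : 2 ≤ M) {s : ℤ} (hs : s ∈ S) (hb : (s : ℂ) ∈ Metric.ball (c₀ : ℂ) (ρ * M)) {p : ℕ}
    (φ : K ≃ₐ[ℚ] K) (hφ : IsFrob K p φ) (hp : (2 * M ^ 3) ^ (d ^ 2) < (p : ℝ)) :
    rho (mon F s) p = Nat.card {i : Fin d // g s φ i = i} := by
  have hM3 : (2 : ℝ) ≤ M ^ 3 := by nlinarith [sq_nonneg (M - 2), mul_pos (show (0:ℝ) < M by linarith) (show (0:ℝ) < M by linarith)]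
  have h1 := hφ d (mon F s) (x s) (M ^ 3) (injx hL hS hs hb) (mapx hMON hd hL hS hs hb) hM3
    (rootsLE_mon hMON hd hL hb) hp
  rw [h1]
  refine Nat.card_congr (Equiv.subtypeEquivRight fun i => ?_)
  rw [hS.act s hs φ i]
  constructor
  · intro h; exact injx hL hS hs hb h
  · intro h; rw [h]

end lab

/-! ## Comparison of the two sums -/

lemma RS_le {d : ℕ} {F : ℤ[X]} {M ρ c₀ : ℝ} {ξ : Fin d → ℂ → ℂ} (hMON : S_MON) (hd : 1 ≤ d)
    (hL : Lab d F M ρ c₀ ξ) (s : ℤ) (y : ℝ) : RS (mon F s) M y ≤ RS (F - C s) M y +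
      d * ∑ p ∈ (primesLE (M ^ 2)).filter (fun p : ℕ => M < p), (1 : ℝ) / p := by
  classical
  have h1 : ∀ p ∈ (primesLE y).filter (fun p : ℕ => M < p), (rho (mon F s) p : ℝ) / p ≤
      (rho (F - C s) p : ℝ) / p + (if (p : ℝ) ≤ M ^ 2 then (d : ℝ) * (1 / p) else 0) := by
    intro p hp
    have hpp : p.Prime := (mem_filter.1 (mem_filter.1 hp).1).2
    have hp0 : (0 : ℝ) < p := by exact_mod_cast hpp.pos
    split_ifs with h
    · have h2 : (rho (mon F s) p : ℝ) ≤ d := by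
        have := rho_le (mon_monic hMON hd hL s) hpp
        rw [mon_deg hMON hd hL s] at this
        exact_mod_cast this
      have h3 : (0 : ℝ) ≤ (rho (F - C s) p : ℝ) / p := by positivity
      calc (rho (mon F s) p : ℝ) / p ≤ d / p := by gcongr
        _ = (d : ℝ) * (1 / p) := by ring
        _ ≤ _ := by linarith
    · push Not at h
      have h2 : |F.leadingCoeff| < (p : ℤ) := by
        have h3 : |(F.leadingCoeff : ℝ)| < p := hL.lc.trans_lt h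
        exact_mod_cast h3
      rw [(hMON F s (by rw [hL.deg]; exact hd)).2.2.2 p hpp h2, add_zero]
  unfold RS
  refine (sum_le_sum h1).trans ?_
  rw [sum_add_distrib]
  refine add_le_add le_rfl ?_
  rw [mul_sum, ← sum_filter]
  refine sum_le_sum_of_subset_of_nonneg ?_ fun p _ _ => by positivity
  intro p hp
  obtain ⟨hp1, hp2⟩ := mem_filter.1 hp
  obtain ⟨hp3, hp4⟩ := mem_filter.1 hp1
  refine mem_filter.2 ⟨?_, hp4⟩
  unfold primesLE at hp3 ⊢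
  refine mem_filter.2 ⟨?_, (mem_filter.1 hp3).2⟩
  rw [mem_range, Nat.lt_succ_iff]
  exact Nat.le_floor hp2

/-! ## Group theory -/

section group

variable {d : ℕ} {Γ : Type} [Group Γ] (g : ℤ → Γ →* Equiv.Perm (Fin d))

open Classical in
lemma stab_inv (Y : Finset (Equiv.Perm (Fin d))) (s s' : ℤ) :
    Stab g Y s s' ↔ Stab g (Y.image fun σ => σ⁻¹) s' s := by
  unfold Stab
  constructor
  · intro h γ σ hσ
    obtain ⟨τ, hτ, rfl⟩ := mem_image.1 hσ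
    refine mem_image.2 ⟨_, h γ τ hτ, ?_⟩
    group
  · intro h γ σ hσ
    have h1 := h γ σ⁻¹ (mem_image_of_mem _ hσ)
    obtain ⟨τ, hτ, h2⟩ := mem_image.1 h1
    have h3 : τ = g s' γ * σ * (g s γ)⁻¹ := by
      rw [← inv_inv τ, h2]
      group
    rw [← h3]
    exact hτ

open Classical in
/-- GEN applied to the output of HITY -/
lemma generic (hGEN : S_GEN) (d : ℕ) : ∃ C : ℕ, ∀ (Γ : Type) [Group Γ]
    (g : ℤ → Γ →* Equiv.Perm (Fin d)) (B : Finset ℤ) (R : ℝ),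
    (∀ s' ∈ B, ∀ Y : Finset (Equiv.Perm (Fin d)),
      ((B.filter fun s => Stab g Y s s').card : ℝ) ≤ R ∨
      ((B.filter fun s => ¬ Stab g Y s s').card : ℝ) ≤ R) →
    C * (R + 1) < B.card → 0 ≤ R →
    ∃ (Y : Subgroup (Equiv.Perm (Fin d))) (S₀ : Finset ℤ), S₀ ⊆ B ∧
      ((B \ S₀).card : ℝ) ≤ C * (R + 1) ∧
      (∀ γ : Γ, ∀ s ∈ S₀, ∀ s' ∈ S₀, g s' γ * (g s γ)⁻¹ ∈ Y) ∧
      (∀ γ : Γ, ∀ s ∈ S₀, ∀ σ ∈ Y, g s γ * σ * (g s γ)⁻¹ ∈ Y) ∧
      ∀ s' ∈ S₀, ∀ A ⊆ S₀, (∀ s ∈ A, ¬ ∀ σ ∈ Y, ∃ γ : Γ, σ = g s' γ * (g s γ)⁻¹) →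
        (A.card : ℝ) ≤ C * (R + 1) := by
  obtain ⟨C, hC⟩ := hGEN d
  refine ⟨C, fun Γ _ g B R hit hlt hR => ?_⟩
  have hfl : (⌊R⌋₊ : ℝ) ≤ R := Nat.floor_le hR
  have hle : ((C * (⌊R⌋₊ + 1) : ℕ) : ℝ) ≤ C * (R + 1) := by
    push_cast
    gcongr
  have hit' : ∀ s' ∈ B, ∀ Y : Finset (Equiv.Perm (Fin d)),
      (B.filter fun s => Stab g Y s s').card ≤ ⌊R⌋₊ ∨
      (B.filter fun s => ¬ Stab g Y s s').card ≤ ⌊R⌋₊ := by
    intro s' hs' Y
    rcases hit s' hs' Y with h | h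
    · exact Or.inl (Nat.le_floor h)
    · exact Or.inr (Nat.le_floor h)
  obtain ⟨Y, S₀, h1, h2, h3, h4, h5⟩ := hC Γ g B ⌊R⌋₊ hit' (fun s hs Y => by
    have h1 := hit' s hs (Y.image fun σ => σ⁻¹)
    have e1 : (B.filter fun s' => Stab g (Y.image fun σ => σ⁻¹) s' s) =
        B.filter fun s' => Stab g Y s s' := filter_congr fun s' _ => (stab_inv g Y s s').symm
    have e2 : (B.filter fun s' => ¬ Stab g (Y.image fun σ => σ⁻¹) s' s) =
        B.filter fun s' => ¬ Stab g Y s s' :=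
      filter_congr fun s' _ => not_congr (stab_inv g Y s s').symm
    rw [e1, e2] at h1
    exact h1) (by
      have h6 : ((C * (⌊R⌋₊ + 1) : ℕ) : ℝ) < B.card := hle.trans_lt hlt
      exact_mod_cast h6)
  refine ⟨Y, S₀, h1, ?_, h3, h4, fun s' hs' A hA hA' => ?_⟩
  · exact (by exact_mod_cast h2 : ((B \ S₀).card : ℝ) ≤ ((C * (⌊R⌋₊ + 1) : ℕ) : ℝ)).trans hle
  · have h6 := (card_le_card (fun s hs => mem_filter.2 ⟨hA hs, hA' s hs⟩ : A ⊆
      S₀.filter fun s => ¬ ∀ σ ∈ Y, ∃ γ : Γ, σ = g s' γ * (g s γ)⁻¹)).trans (h5 s' hs')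
    exact (by exact_mod_cast h6 : (A.card : ℝ) ≤ ((C * (⌊R⌋₊ + 1) : ℕ) : ℝ)).trans hle

/-- the orbits of `Y` are permuted -/
lemma orbits (Y : Subgroup (Equiv.Perm (Fin d))) (S₀ : Finset ℤ) (s₁ : ℤ) (hs₁ : s₁ ∈ S₀)
    (ha : ∀ γ : Γ, ∀ s ∈ S₀, ∀ s' ∈ S₀, g s' γ * (g s γ)⁻¹ ∈ Y)
    (hb : ∀ γ : Γ, ∀ s ∈ S₀, ∀ σ ∈ Y, g s γ * σ * (g s γ)⁻¹ ∈ Y) :
    ∃ (part : Fin d → Fin d) (π : Γ → Equiv.Perm (Fin d)),
      (∀ γ, ∀ s ∈ S₀, ∀ i, part (g s γ i) = π γ (part i)) ∧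
      ∀ i j, part i = part j → ∃ σ ∈ Y, σ i = j := by
  classical
  have hinv : ∀ (σ : Equiv.Perm (Fin d)) (i : Fin d), σ⁻¹ (σ i) = i :=
    fun σ i => σ.symm_apply_apply i
  have hinv' : ∀ (σ : Equiv.Perm (Fin d)) (i : Fin d), σ (σ⁻¹ i) = i :=
    fun σ i => σ.apply_symm_apply i
  let st : Setoid (Fin d) :=
    { r := fun i j => ∃ σ ∈ Y, σ i = j
      iseqv := ⟨fun i => ⟨1, Y.one_mem, rfl⟩, fun {i j} ⟨σ, hσ, h⟩ => ⟨σ⁻¹, Y.inv_mem hσ, by
          rw [← h]; simp⟩, fun {i j k} ⟨σ, hσ, h⟩ ⟨τ, hτ, h'⟩ => ⟨τ * σ, Y.mul_mem hτ hσ, by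
          rw [← h', ← h]; rfl⟩⟩ }
  let part : Fin d → Fin d := fun i => (Quotient.mk st i).out
  have hpr : ∀ i, ∃ σ ∈ Y, σ (part i) = i := fun i =>
    (Quotient.exact (Quotient.out_eq (Quotient.mk st i)) : st.r (part i) i)
  have hpe : ∀ i j, (∃ σ ∈ Y, σ i = j) → part i = part j := by
    intro i j h
    have : Quotient.mk st i = Quotient.mk st j := Quotient.sound h
    change (Quotient.mk st i).out = (Quotient.mk st j).out
    rw [this]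
  have hpe' : ∀ i j, part i = part j → ∃ σ ∈ Y, σ i = j := by
    intro i j h
    obtain ⟨σ, hσ, h1⟩ := hpr i
    obtain ⟨τ, hτ, h2⟩ := hpr j
    refine ⟨τ * σ⁻¹, Y.mul_mem hτ (Y.inv_mem hσ), ?_⟩
    rw [← h] at h2
    rw [← h2]
    change τ (σ⁻¹ i) = _
    congr 1
    rw [Equiv.Perm.inv_eq_iff_eq]
    exact h1.symm
  have hpp : ∀ i, part (part i) = part i := fun i => hpe _ _ (hpr i)
  -- the action on the orbits
  have hact : ∀ (γ : Γ) (s) (_ : s ∈ S₀) (i j : Fin d), part i = part j →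
      part (g s γ i) = part (g s γ j) := by
    intro γ s hs i j h
    obtain ⟨σ, hσ, h1⟩ := hpe' i j h
    refine hpe _ _ ⟨g s γ * σ * (g s γ)⁻¹, hb γ s hs σ hσ, ?_⟩
    change g s γ (σ ((g s γ)⁻¹ (g s γ i))) = _
    rw [hinv, h1]
  have hcross : ∀ (γ : Γ) (s) (_ : s ∈ S₀) (i : Fin d), part (g s γ i) = part (g s₁ γ i) := by
    intro γ s hs i
    refine hpe _ _ ⟨g s₁ γ * (g s γ)⁻¹, ha γ s hs s₁ hs₁, ?_⟩
    change g s₁ γ ((g s γ)⁻¹ (g s γ i)) = _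
    rw [hinv]
  let e : Γ → ({i : Fin d // part i = i} ≃ {i : Fin d // part i = i}) := fun γ =>
    { toFun := fun i => ⟨part (g s₁ γ i.1), hpp _⟩
      invFun := fun i => ⟨part (g s₁ γ⁻¹ i.1), hpp _⟩
      left_inv := by
        intro i
        apply Subtype.ext
        change part (g s₁ γ⁻¹ (part (g s₁ γ i.1))) = i.1
        rw [hact γ⁻¹ s₁ hs₁ _ _ (hpp _), map_inv, hinv]
        exact i.2
      right_inv := by
        intro i
        apply Subtype.ext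
        change part (g s₁ γ (part (g s₁ γ⁻¹ i.1))) = i.1
        rw [hact γ s₁ hs₁ _ _ (hpp _), map_inv, hinv']
        exact i.2 }
  refine ⟨part, fun γ => (e γ).extendSubtype, fun γ s hs i => ?_, hpe'⟩
  rw [hcross γ s hs i, Equiv.extendSubtype_apply_of_mem (e γ) (part i) (hpp i)]
  change part (g s₁ γ i) = part (g s₁ γ (part i))
  exact (hact γ s₁ hs₁ _ _ (hpp i)).symm

end group

end Pool.Agent.Helper94.EP
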