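import Pool.Agent.Helper94.EP.CLOWa

/-! # EP/CLOW: the case of very large `y` (helper94) -/

set_option autoImplicit false

open Finset Polynomial Filter

namespace Pool.Agent.Helper94.EP

open Pool.Agent.Helper20.EP

lemma ev_log (κ δ : ℝ) (hκ : 0 < κ) (hδ : 0 < δ) :
    ∀ᶠ M : ℝ in atTop, Real.log M ≤ δ * M ^ κ := by
  have h1 := (isLittleO_log_rpow_atTop hκ).bound hδ
  filter_upwards [h1, eventually_ge_atTop 1] with M hM h2
  rw [Real.norm_of_nonneg (Real.log_nonneg h2), Real.norm_of_nonneg (by positivity)] at hM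
  exact hM

lemma ev_const (κ A : ℝ) (hκ : 0 < κ) : ∀ᶠ M : ℝ in atTop, A ≤ M ^ κ :=
  (tendsto_rpow_atTop hκ).eventually_ge_atTop A

lemma log_le_half {M : ℝ} (hM : 0 < M) : Real.log M ≤ M / 2 := by
  have h1 := Real.log_le_sub_one_of_pos (show (0 : ℝ) < M / 2 by linarith)
  have h2 : Real.log (M / 2) = Real.log M - Real.log 2 := Real.log_div hM.ne' two_ne_zero
  have h3 : Real.log 2 < 0.6931471808 := Real.log_two_lt_d9
  rw [h2] at h1
  linarith

lemma pow_three_ge {M : ℝ} (hM : 2 ≤ M) : (2 : ℝ) ≤ M ^ 3 := by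
  have h1 : (2 : ℝ) ^ 3 ≤ M ^ 3 := by gcongr
  linarith

theorem big_y (hOSM : S_OSM) (hTSM : S_TSM) (hMON : S_MON) (d : ℕ) (hd : 1 ≤ d) (κ ε : ℝ)
    (hκ : 0 < κ) (hε : 0 < ε) :
    ∃ M₁ : ℝ, ∀ (F : ℤ[X]) (M ρ c₀ y : ℝ) (ξ : Fin d → ℂ → ℂ) (s : ℤ), Lab d F M ρ c₀ ξ →
      0 < ρ → M₁ ≤ M → M ≤ y → |(s : ℝ) - c₀| ≤ ρ * M / 4 → Irreducible (mon F s) →
      M ^ κ < ll y → ll y - ll M - ε * Real.sqrt (ll y) ≤ RS (F - C s) M y := by
  classical
  obtain ⟨CO, hCO, hO⟩ := hOSM d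
  obtain ⟨CT, hT⟩ := hTSM d
  have ev : ∀ᶠ M : ℝ in atTop, 3 ≤ M ∧
      ((3 * CT + 1 : ℕ) : ℝ) * Real.log M ≤ M ^ κ ∧
      ((3 * CT + 1 : ℕ) : ℝ) * Real.log M + (3 * CO + 1) ≤ ε * M ^ (κ / 2) := by
    have hk : (0 : ℝ) < ((3 * CT + 1 : ℕ) : ℝ) := by exact_mod_cast Nat.succ_pos _
    filter_upwards [eventually_ge_atTop 3, ev_log κ (1 / ((3 * CT + 1 : ℕ) : ℝ)) hκ (by positivity),
      ev_log (κ / 2) (ε / (2 * ((3 * CT + 1 : ℕ) : ℝ))) (by positivity) (by positivity),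
      ev_const (κ / 2) (2 * (3 * CO + 1) / ε) (by positivity)] with M h1 h2 h3 h4
    refine ⟨h1, ?_, ?_⟩
    · have := mul_le_mul_of_nonneg_left h2 hk.le
      rwa [← mul_assoc, mul_one_div_cancel hk.ne', one_mul] at this
    · have h5 := mul_le_mul_of_nonneg_left h3 hk.le
      have h6 : ((3 * CT + 1 : ℕ) : ℝ) * (ε / (2 * ((3 * CT + 1 : ℕ) : ℝ)) * M ^ (κ / 2)) =
          ε / 2 * M ^ (κ / 2) := by
        field_simp
      rw [h6] at h5
      rw [div_le_iff₀ hε] at h4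
      linarith
  obtain ⟨M₁, hM₁⟩ := eventually_atTop.1 ev
  refine ⟨M₁, fun F M ρ c₀ y ξ s hL hρ hM hMy hs hirr hlly => ?_⟩
  obtain ⟨hM3, e1, e2⟩ := hM₁ M hM
  have hM0 : (0 : ℝ) < M := by linarith
  have hM1 : (1 : ℝ) ≤ M := by linarith
  have hlM1 : 1 ≤ Real.log M := by
    rw [Real.le_log_iff_exp_le hM0]
    linarith [Real.exp_one_lt_d9]
  have hllM : 0 ≤ ll M := Real.log_nonneg hlM1
  have hball := mem_ball_of (s := s) (c₀ := c₀) (mul_pos hρ hM0) hs
  have hmon := mon_monic hMON hd hL s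
  have hdeg := mon_deg hMON hd hL s
  have hrt := rootsLE_mon hMON hd hL hball
  have hH : (2 : ℝ) ≤ M ^ 3 := pow_three_ge (by linarith)
  set k : ℕ := 3 * CT + 1 with hk
  set y0 : ℝ := Real.exp (M ^ k) with hy0
  have hMk : M ≤ M ^ k := by
    calc M = M ^ 1 := (pow_one M).symm
      _ ≤ M ^ k := pow_le_pow_right₀ hM1 (by omega)
  have hly0 : Real.log y0 = M ^ k := Real.log_exp _
  have hM2y0 : M ^ 2 ≤ y0 := by
    rw [hy0, ← Real.log_le_iff_le_exp (by positivity), Real.log_pow]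
    have := log_le_half hM0
    push_cast
    linarith
  have hMM2 : M ≤ M ^ 2 := by nlinarith
  have h2y0 : 2 ≤ y0 := by linarith
  have hlly0 : ll y0 = k * Real.log M := by
    unfold ll
    rw [hly0, Real.log_pow]
  have hy_pos : 0 < y := by linarith
  have hlypos : 0 < Real.log y := Real.log_pos (by linarith)
  have hy0y : y0 ≤ y := by
    rw [hy0, ← Real.le_log_iff_exp_le hy_pos]
    have h1 : M ^ k = Real.exp (k * Real.log M) := by
      rw [← Real.log_pow, Real.exp_log (by positivity)]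
    have h2 : Real.log y = Real.exp (ll y) := by
      unfold ll
      rw [Real.exp_log hlypos]
    rw [h1, h2]
    apply Real.exp_le_exp.2
    linarith
  have hps := psum_lower (fun p => (rho (mon F s) p : ℝ)) y0 y (CO * Real.log (M ^ 3))
    ((M ^ 3) ^ CT) h2y0 hy0y (fun Y h1 _ => hT (mon F s) hmon hirr hdeg hd (M ^ 3) hH hrt Y
      (by linarith)) (hO (mon F s) hmon hirr hdeg (M ^ 3) hH hrt y0 (by linarith))
  have hfrac : (CO * Real.log (M ^ 3) + (M ^ 3) ^ CT) / Real.log y0 ≤ 3 * CO + 1 := by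
    rw [hly0, div_le_iff₀ (by positivity), Real.log_pow]
    have h1 : (M ^ 3) ^ CT ≤ M ^ k := by
      rw [← pow_mul]
      exact pow_le_pow_right₀ hM1 (by omega)
    have h2 : Real.log M ≤ M ^ k := by linarith [log_le_half hM0]
    have h3 : CO * (((3 : ℕ) : ℝ) * Real.log M) ≤ 3 * CO * M ^ k := by
      have := mul_le_mul_of_nonneg_left h2 (show 0 ≤ 3 * CO by positivity)
      push_cast
      linarith
    linarith
  have hcmp : ∑ p ∈ (primesLE y).filter (fun p : ℕ => y0 < p), (rho (mon F s) p : ℝ) / p ≤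
      RS (F - C s) M y := by
    unfold RS
    calc ∑ p ∈ (primesLE y).filter (fun p : ℕ => y0 < p), (rho (mon F s) p : ℝ) / p
        = ∑ p ∈ (primesLE y).filter (fun p : ℕ => y0 < p), (rho (F - C s) p : ℝ) / p := by
          refine sum_congr rfl fun p hp => ?_
          have hpp : p.Prime := (mem_filter.1 (mem_filter.1 hp).1).2
          have h2 : |F.leadingCoeff| < (p : ℤ) := by
            have h3 : |(F.leadingCoeff : ℝ)| < p :=
              (hL.lc.trans hM2y0).trans_lt (mem_filter.1 hp).2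
            exact_mod_cast h3
          rw [(hMON F s (by rw [hL.deg]; exact hd)).2.2.2 p hpp h2]
      _ ≤ _ := by
          refine sum_le_sum_of_subset_of_nonneg ?_ fun p _ _ => by positivity
          intro p hp
          obtain ⟨h1, h2⟩ := mem_filter.1 hp
          exact mem_filter.2 ⟨h1, by linarith⟩
  have hsq : M ^ (κ / 2) ≤ Real.sqrt (ll y) := by
    apply Real.le_sqrt_of_sq_le
    rw [← Real.rpow_natCast, ← Real.rpow_mul hM0.le]
    have : κ / 2 * ((2 : ℕ) : ℝ) = κ := by push_cast; ring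
    rw [this]
    exact hlly.le
  have h7 := mul_le_mul_of_nonneg_left hsq hε.le
  rw [hlly0] at hps
  linarith

end Pool.Agent.Helper94.EP
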