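import Pool.Agent.Helper94.EP.CLOWb

/-! # EP/CLOW: the case of moderate `y` (helper94) -/

set_option autoImplicit false

open Finset Polynomial Filter

namespace Pool.Agent.Helper94.EP

open Pool.Agent.Helper20.EP

lemma rootsLE_mono {G : ℤ[X]} {H H' : ℝ} (h : RootsLE G H) (hh : H ≤ H') : RootsLE G H' :=
  fun z hz => (h z hz).trans hh

lemma card_fix_le {d : ℕ} (σ : Equiv.Perm (Fin d)) :
    (Nat.card {i : Fin d // σ i = i}) ≤ d := by
  classical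
  rw [Nat.card_eq_fintype_card]
  exact (Fintype.card_subtype_le _).trans (by simp)

lemma card_Y_le {d : ℕ} (Y : Subgroup (Equiv.Perm (Fin d))) : Nat.card Y ≤ d.factorial := by
  classical
  have h1 : Nat.card Y ≤ Nat.card (Equiv.Perm (Fin d)) :=
    Nat.le_of_dvd Nat.card_pos (Subgroup.card_subgroup_dvd_card Y)
  rwa [Nat.card_eq_fintype_card (α := Equiv.Perm (Fin d)), Fintype.card_perm, Fintype.card_fin] at h1

lemma card_k_le {d : ℕ} (Y : Subgroup (Equiv.Perm (Fin d))) (h h' : Equiv.Perm (Fin d)) :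
    Nat.card {σ : Y // h' * (σ : Equiv.Perm (Fin d)) = σ * h} ≤ d.factorial := by
  classical
  refine le_trans ?_ (card_Y_le Y)
  exact Nat.card_le_card_of_injective (fun σ : {σ : Y // h' * (σ : Equiv.Perm (Fin d)) = σ * h} =>
    (σ : Y)) Subtype.val_injective

/-- the constant for all degrees -/
lemma osm_all (hOSM : S_OSM) : ∃ CO : ℕ → ℝ, (∀ D, 0 < CO D) ∧ ∀ D, ∀ g : ℤ[X], g.Monic →
    Irreducible g → g.natDegree = D → ∀ H : ℝ, 2 ≤ H → RootsLE g H → ∀ Y : ℝ, 1 ≤ Y →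
      ∑ p ∈ primesLE Y, (rho g p : ℝ) * Real.log p / p ≤ Real.log Y + CO D * Real.log H := by
  choose CO h1 h2 using hOSM
  exact ⟨CO, h1, h2⟩

open Classical in
theorem dual (hOSM : S_OSM) (hTSM : S_TSM) (hMON : S_MON) (hFROB : S_FROB) (hPAIR : S_PAIR)
    (hPSD : S_PSD) (hDUALA : S_DUALA) (d : ℕ) (hd : 1 ≤ d) (κ ε : ℝ)
    (hκ : 0 < κ) (hε : 0 < ε) :
    ∃ M₁ : ℝ, ∀ (F : ℤ[X]) (M ρ c₀ y : ℝ) (ξ : Fin d → ℂ → ℂ) (S : Finset ℤ) (m : ℤ → ℝ)
      (K : Type) [Field K] [NumberField K] [IsGalois ℚ K] (ι : K →+* ℂ) (x : ℤ → Fin d → K)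
      (g : ℤ → (K ≃ₐ[ℚ] K) →* Equiv.Perm (Fin d)) (Y : Subgroup (Equiv.Perm (Fin d))),
      Lab d F M ρ c₀ ξ → 0 < ρ → M₁ ≤ M → M ≤ y → (∀ s ∈ S, |(s : ℝ) - c₀| ≤ ρ * M / 4) →
      Sys d S ξ K ι x g → (∀ s ∈ S, 0 ≤ m s) → ∑ s ∈ S, m s = 1 →
      (∀ γ : K ≃ₐ[ℚ] K, ∀ s ∈ S, ∀ s' ∈ S, g s' γ * (g s γ)⁻¹ ∈ Y) →
      (∀ γ : K ≃ₐ[ℚ] K, ∀ s ∈ S, ∀ σ ∈ Y, g s γ * σ * (g s γ)⁻¹ ∈ Y) →
      (∀ i j, ∃ σ ∈ Y, σ i = j) →
      (∀ s' ∈ S, ∀ A ⊆ S, (∀ s ∈ A, ¬ ∀ σ ∈ Y, ∃ γ : K ≃ₐ[ℚ] K, σ = g s' γ * (g s γ)⁻¹) →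
        ∑ s ∈ A, m s ≤ M ^ (-κ)) →
      ll y ≤ M ^ (κ / 2) →
      ∃ s ∈ S, ll y - ll M - ε * Real.sqrt (ll y) ≤ RS (F - C s) M y := by
  obtain ⟨CO, hCO, hO⟩ := osm_all hOSM
  obtain ⟨B, hB⟩ := hPAIR d hd
  obtain ⟨Cm, hCm, hCm'⟩ := mertens2 hOSM hTSM
  set D : ℕ := d.factorial with hD
  set CS : ℝ := ∑ j ∈ range (D + 1), CO j with hCS
  have hCS0 : 0 ≤ CS := sum_nonneg fun j _ => (hCO j).le
  set C₁ : ℝ := 4 * (d : ℝ) ^ 2 + 3 * (B + 1) * (1 + CS) with hC₁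
  have hC₁0 : 0 < C₁ := by positivity
  obtain ⟨M₁, hM₁⟩ := hDUALA D C₁ (ε / 2) κ hC₁0 (by positivity) hκ
  -- constant
  have ev : ∀ᶠ M : ℝ in atTop, 3 ≤ M ∧ M₁ ≤ M ∧
      d * (Real.log 2 + Cm) + Cm < ε / 2 * Real.sqrt (ll M) := by
    have h1 : Tendsto (fun M : ℝ => ε / 2 * Real.sqrt (ll M)) atTop atTop := by
      refine Tendsto.const_mul_atTop (by positivity) ?_
      exact Real.tendsto_sqrt_atTop.comp (Real.tendsto_log_atTop.comp Real.tendsto_log_atTop)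
    filter_upwards [eventually_ge_atTop 3, eventually_ge_atTop M₁, h1.eventually_gt_atTop _]
      with M h1 h2 h3
    exact ⟨h1, h2, h3⟩
  obtain ⟨M₂, hM₂⟩ := eventually_atTop.1 ev
  refine ⟨M₂, fun F M ρ c₀ y ξ S m K _ _ _ ι x g Y hL hρ hM hMy hs hSys hm0 hm1 hY1 hY2 hYt hbad
    hlly => ?_⟩
  obtain ⟨hM3, hMM₁, hlarge⟩ := hM₂ M hM
  have hM0 : (0 : ℝ) < M := by linarith
  have hM1 : (1 : ℝ) ≤ M := by linarith
  have hlM1 : 1 ≤ Real.log M := by
    rw [Real.le_log_iff_exp_le hM0]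
    linarith [Real.exp_one_lt_d9]
  have hllM : 0 ≤ ll M := Real.log_nonneg hlM1
  have hball : ∀ s ∈ S, (s : ℂ) ∈ Metric.ball (c₀ : ℂ) (ρ * M) :=
    fun s h => mem_ball_of (mul_pos hρ hM0) (hs s h)
  have hH : (2 : ℝ) ≤ M ^ 3 := pow_three_ge (by linarith)
  have hdD : (d : ℝ) ≤ D := by exact_mod_cast Nat.self_le_factorial d
  have hd1 : (1 : ℝ) ≤ d := by exact_mod_cast hd
  -- powers
  have hpow1 : (2 * M ^ 3) ^ (d ^ 2) ≤ M ^ C₁ := by
    calc (2 * M ^ 3) ^ (d ^ 2) ≤ (M ^ 4) ^ (d ^ 2) := by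
          gcongr
          have : (0 : ℝ) < M ^ 3 := by positivity
          nlinarith
      _ = M ^ ((4 * d ^ 2 : ℕ) : ℝ) := by rw [Real.rpow_natCast, pow_mul]
      _ ≤ M ^ C₁ := by
          apply Real.rpow_le_rpow_of_exponent_le hM1
          rw [hC₁]
          push_cast
          have : 0 ≤ 3 * ((B : ℝ) + 1) * (1 + CS) := by positivity
          linarith
  have hpow2 : (M ^ 3) ^ (B + 1) ≤ M ^ C₁ := by
    rw [← pow_mul, ← Real.rpow_natCast]
    apply Real.rpow_le_rpow_of_exponent_le hM1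
    rw [hC₁]
    push_cast
    have h1 : 0 ≤ 4 * (d : ℝ) ^ 2 := by positivity
    have h2 : 0 ≤ 3 * ((B : ℝ) + 1) * CS := by positivity
    linarith
  have hpow3 : (M ^ 3) ^ B ≤ (M ^ 3) ^ (B + 1) :=
    pow_le_pow_right₀ (by linarith) (Nat.le_succ B)
  have hpow4 : (2 : ℝ) ≤ (M ^ 3) ^ (B + 1) := by
    calc (2 : ℝ) ≤ (M ^ 3) ^ 1 := by rw [pow_one]; exact hH
      _ ≤ _ := pow_le_pow_right₀ (by linarith) (by omega)
  -- Frobenius
  have hφ : ∀ p : ℕ, ∃ φ : K ≃ₐ[ℚ] K, p.Prime → IsFrob K p φ := by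
    intro p
    by_cases hp : p.Prime
    · obtain ⟨φ, h⟩ := hFROB K p hp
      exact ⟨φ, fun _ => h⟩
    · exact ⟨1, fun h => absurd h hp⟩
  choose φ hφ using hφ
  let a : ℤ → ℕ → ℝ := fun s p => if p.Prime then (rho (mon F s) p : ℝ) - 1 else 0
  let k : ℤ → ℤ → ℕ → ℝ := fun s s' p =>
    (Nat.card {σ : Y // g s' (φ p) * (σ : Equiv.Perm (Fin d)) = σ * g s (φ p)} : ℝ)
  let bad : ℤ → ℤ → Prop := fun s s' => ¬ ∀ σ ∈ Y, ∃ γ : K ≃ₐ[ℚ] K, σ = g s' γ * (g s γ)⁻¹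
  have ha : ∀ s ∈ S, ∀ p, |a s p| ≤ D := by
    intro s _ p
    change |if p.Prime then (rho (mon F s) p : ℝ) - 1 else 0| ≤ D
    split_ifs with hp
    · have h1 : (rho (mon F s) p : ℝ) ≤ d := by
        have := rho_le (mon_monic hMON hd hL s) hp
        rw [mon_deg hMON hd hL s] at this
        exact_mod_cast this
      have h2 : (0 : ℝ) ≤ rho (mon F s) p := by positivity
      rw [abs_le]
      constructor
      · linarith
      · linarith
    · rw [abs_zero]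
      linarith
  have hk : ∀ s ∈ S, ∀ s' ∈ S, ∀ p, 0 ≤ k s s' p ∧ k s s' p ≤ D := by
    intro s _ s' _ p
    refine ⟨Nat.cast_nonneg _, ?_⟩
    exact Nat.cast_le.2 (card_k_le Y _ _)
  have hpsd : ∀ p : ℕ, p.Prime → M ^ C₁ < p →
      1 + (∑ s ∈ S, m s * a s p) ^ 2 / (D : ℝ) ^ 2 ≤
        ∑ s ∈ S, ∑ s' ∈ S, m s * m s' * k s s' p := by
    intro p hp hpM
    have h1 := hPSD d Y S m (fun s => g s (φ p)) hd hYt hm0 hm1
      (fun s hs' s' hs'' => hY1 (φ p) s hs' s' hs'') (fun s hs' σ hσ => hY2 (φ p) s hs' σ hσ)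
    refine le_trans ?_ h1
    have h2 : ∑ s ∈ S, m s * a s p =
        ∑ s ∈ S, m s * ((Nat.card {i : Fin d // g s (φ p) i = i} : ℝ) - 1) := by
      refine sum_congr rfl fun s hs' => ?_
      have h3 : a s p = (rho (mon F s) p : ℝ) - 1 := if_pos hp
      rw [h3, rho_frob hMON hd hL hSys (by linarith) hs' (hball s hs') (φ p) (hφ p hp)
        (hpow1.trans_lt hpM)]
    rw [h2]
    gcongr
  have hpair : ∀ s ∈ S, ∀ s' ∈ S, ¬ bad s s' → ∀ Z : ℝ, 1 ≤ Z →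
      ∑ p ∈ (primesLE Z).filter (fun p : ℕ => M ^ C₁ < p), k s s' p * Real.log p / p ≤
        Real.log Z + C₁ * Real.log M := by
    intro s hs1 s' hs2 hnb Z hZ
    have hnb' : ∀ σ ∈ Y, ∃ γ : K ≃ₐ[ℚ] K, σ = g s' γ * (g s γ)⁻¹ := not_not.1 hnb
    obtain ⟨G, hG1, hG2, hG3, hG4, hG5⟩ := hB K (mon F s) (mon F s') (x s) (x s') (M ^ 3) (g s)
      (g s') Y (injx hL hSys hs1 (hball s hs1)) (injx hL hSys hs2 (hball s' hs2))
      (mapx hMON hd hL hSys hs1 (hball s hs1)) (mapx hMON hd hL hSys hs2 (hball s' hs2)) hH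
      (rootsLE_mon hMON hd hL (hball s hs1)) (rootsLE_mon hMON hd hL (hball s' hs2))
      (hSys.act s hs1) (hSys.act s' hs2) (fun γ => hY1 γ s hs1 s' hs2)
      (fun γ σ hσ => hY2 γ s hs1 σ hσ) hnb'
    have h1 := hO (Nat.card Y) G hG1 hG2 hG3 ((M ^ 3) ^ (B + 1)) hpow4
      (rootsLE_mono hG4 hpow3) Z hZ
    have h2 : ∑ p ∈ (primesLE Z).filter (fun p : ℕ => M ^ C₁ < p), k s s' p * Real.log p / p ≤
        ∑ p ∈ primesLE Z, (rho G p : ℝ) * Real.log p / p := by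
      calc ∑ p ∈ (primesLE Z).filter (fun p : ℕ => M ^ C₁ < p), k s s' p * Real.log p / p
          = ∑ p ∈ (primesLE Z).filter (fun p : ℕ => M ^ C₁ < p),
              (rho G p : ℝ) * Real.log p / p := by
            refine sum_congr rfl fun p hp => ?_
            obtain ⟨hp1, hp2⟩ := mem_filter.1 hp
            have hpp : p.Prime := (mem_filter.1 hp1).2
            rw [hG5 p (φ p) hpp (hφ p hpp) (hpow3.trans_lt (hpow2.trans_lt hp2))]
        _ ≤ _ := by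
            refine sum_le_sum_of_subset_of_nonneg (filter_subset _ _) fun p hp _ => ?_
            have hpp : p.Prime := (mem_filter.1 hp).2
            have : 0 ≤ Real.log p := Real.log_nonneg (by exact_mod_cast hpp.one_lt.le)
            positivity
    refine h2.trans (h1.trans ?_)
    have h3 : CO (Nat.card Y) ≤ CS := by
      rw [hCS]
      exact single_le_sum (f := CO) (fun j _ => (hCO j).le)
        (mem_range.2 (Nat.lt_succ_of_le (card_Y_le Y)))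
    rw [Real.log_pow, Real.log_pow]
    have h4 : CO (Nat.card Y) * (((B + 1 : ℕ) : ℝ) * (((3 : ℕ) : ℝ) * Real.log M)) ≤
        C₁ * Real.log M := by
      have h5 : CO (Nat.card Y) * (((B + 1 : ℕ) : ℝ) * (((3 : ℕ) : ℝ) * Real.log M)) =
          (3 * (B + 1) * CO (Nat.card Y)) * Real.log M := by push_cast; ring
      rw [h5]
      gcongr
      rw [hC₁]
      have h6 : 3 * ((B : ℝ) + 1) * CO (Nat.card Y) ≤ 3 * ((B : ℝ) + 1) * CS := by gcongr
      have h7 : 0 ≤ 4 * (d : ℝ) ^ 2 := by positivity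
      have h8 : 0 ≤ 3 * ((B : ℝ) + 1) := by positivity
      linarith
    linarith
  have hbad' : ∑ s ∈ S, ∑ s' ∈ S with bad s s', m s * m s' ≤ M ^ (-κ) := by
    have h1 : ∑ s ∈ S, ∑ s' ∈ S with bad s s', m s * m s' =
        ∑ s' ∈ S, m s' * ∑ s ∈ S.filter (fun s => bad s s'), m s := by
      simp_rw [sum_filter, mul_sum]
      rw [sum_comm]
      refine sum_congr rfl fun s' _ => sum_congr rfl fun s _ => ?_
      split_ifs
      · ring
      · ring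
    rw [h1]
    calc ∑ s' ∈ S, m s' * ∑ s ∈ S.filter (fun s => bad s s'), m s
        ≤ ∑ s' ∈ S, m s' * M ^ (-κ) :=
          sum_le_sum fun s' hs' => mul_le_mul_of_nonneg_left (hbad s' hs' _ (filter_subset _ _)
            fun s hs'' => (mem_filter.1 hs'').2) (hm0 s' hs')
      _ = M ^ (-κ) := by rw [← sum_mul, hm1, one_mul]
  have key := hM₁ M y S m a k bad hMM₁ hMy hlly hm0 hm1 ha hk hpsd hpair hbad'
  by_contra hcon
  push Not at hcon
  -- sums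
  have hin : ∀ s ∈ S, ∑ p ∈ (primesLE y).filter (fun p : ℕ => M < p), a s p / p ≤
      -(ε * Real.sqrt (ll y)) + (d * (Real.log 2 + Cm) + Cm) := by
    intro s hs'
    have h1 : ∑ p ∈ (primesLE y).filter (fun p : ℕ => M < p), a s p / p =
        RS (mon F s) M y - ∑ p ∈ (primesLE y).filter (fun p : ℕ => M < p), (1 : ℝ) / p := by
      unfold RS
      rw [← sum_sub_distrib]
      refine sum_congr rfl fun p hp => ?_
      have hpp : p.Prime := (mem_filter.1 (mem_filter.1 hp).1).2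
      have h3 : a s p = (rho (mon F s) p : ℝ) - 1 := if_pos hpp
      rw [h3]
      ring
    have h2 := RS_le hMON hd hL s y
    have h3 := (hCm' M y (by linarith) hMy).2
    have h4 := (hCm' M (M ^ 2) (by linarith) (by nlinarith)).1
    have h5 : ll (M ^ 2) = Real.log 2 + ll M := by
      unfold ll
      rw [Real.log_pow, Real.log_mul (by norm_num) (by positivity)]
      norm_num
    have h6 := mul_le_mul_of_nonneg_left h4 (show (0 : ℝ) ≤ d by linarith)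
    have h7 := hcon s hs'
    rw [h1]
    rw [h5] at h6
    have h8 : (d : ℝ) * (Real.log 2 + ll M - ll M + Cm) = d * (Real.log 2 + Cm) := by ring
    rw [h8] at h6
    linarith
  have htot : ∑ s ∈ S, m s * ∑ p ∈ (primesLE y).filter (fun p : ℕ => M < p), a s p / p ≤
      -(ε * Real.sqrt (ll y)) + (d * (Real.log 2 + Cm) + Cm) := by
    calc ∑ s ∈ S, m s * ∑ p ∈ (primesLE y).filter (fun p : ℕ => M < p), a s p / p
        ≤ ∑ s ∈ S, m s * (-(ε * Real.sqrt (ll y)) + (d * (Real.log 2 + Cm) + Cm)) :=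
          sum_le_sum fun s hs' => mul_le_mul_of_nonneg_left (hin s hs') (hm0 s hs')
      _ = _ := by rw [← sum_mul, hm1, one_mul]
  have h1 := (abs_le.1 key).1
  have h2 : Real.sqrt (ll M) ≤ Real.sqrt (ll y) := by
    apply Real.sqrt_le_sqrt
    unfold ll
    apply Real.log_le_log (by linarith)
    exact Real.log_le_log hM0 hMy
  have h3 := mul_le_mul_of_nonneg_left h2 (show 0 ≤ ε / 2 by positivity)
  linarith

end Pool.Agent.Helper94.EP
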