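import Pool.Agent.Helper20.EP.Spec1

/-! # EP/EKU: Taylor bounds for characteristic functions and comparison of moments (helper94) -/

set_option autoImplicit false

open Finset

namespace Pool.Agent.Helper94.EP

/-! ## Taylor's formula for `exp (i x)` -/

/-- the Taylor polynomial of `exp (i x)` -/
noncomputable def TP (k : ℕ) (x : ℝ) : ℂ :=
  ∑ j ∈ range k, ((x : ℂ) * Complex.I) ^ j / (j.factorial : ℂ)

/-- the remainder -/
noncomputable def RT (k : ℕ) (x : ℝ) : ℂ := Complex.exp (x * Complex.I) - TP k x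

lemma TP_hasDerivAt (k : ℕ) (x : ℝ) : HasDerivAt (TP (k + 1)) (Complex.I * TP k x) x := by
  have h1 : ∀ j : ℕ, HasDerivAt (fun y : ℝ => ((y : ℂ) * Complex.I) ^ j / (j.factorial : ℂ))
      ((j : ℂ) * ((x : ℂ) * Complex.I) ^ (j - 1) * Complex.I / (j.factorial : ℂ)) x := by
    intro j
    have h2 : HasDerivAt (fun y : ℝ => (y : ℂ) * Complex.I) Complex.I x := by
      have := (Complex.ofRealCLM.hasDerivAt (x := x)).mul_const Complex.I
      simpa using this
    exact (h2.pow j).div_const _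
  have h3 : HasDerivAt (TP (k + 1)) (∑ j ∈ range (k + 1),
      ((j : ℂ) * ((x : ℂ) * Complex.I) ^ (j - 1) * Complex.I / (j.factorial : ℂ))) x := by
    unfold TP
    exact HasDerivAt.fun_sum fun j _ => h1 j
  have h4 : (∑ j ∈ range (k + 1),
      ((j : ℂ) * ((x : ℂ) * Complex.I) ^ (j - 1) * Complex.I / (j.factorial : ℂ))) =
      Complex.I * TP k x := by
    rw [sum_range_succ', TP, mul_sum]
    simp only [Nat.cast_zero, zero_mul, zero_div, add_zero, Nat.add_sub_cancel]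
    refine sum_congr rfl fun j _ => ?_
    rw [Nat.factorial_succ]
    push_cast
    have h5 : ((j : ℂ) + 1) ≠ 0 := by exact_mod_cast Nat.succ_ne_zero j
    have h6 : ((j.factorial : ℕ) : ℂ) ≠ 0 := by exact_mod_cast Nat.factorial_ne_zero j
    field_simp
  rw [← h4]
  exact h3

lemma RT_hasDerivAt (k : ℕ) (x : ℝ) : HasDerivAt (RT (k + 1)) (Complex.I * RT k x) x := by
  unfold RT
  have h2 : HasDerivAt (fun y : ℝ => (y : ℂ) * Complex.I) Complex.I x := by
    have := (Complex.ofRealCLM.hasDerivAt (x := x)).mul_const Complex.I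
    simpa using this
  have h3 := h2.cexp.sub (TP_hasDerivAt k x)
  have h4 : Complex.exp (x * Complex.I) * Complex.I - Complex.I * TP k x =
      Complex.I * (Complex.exp (x * Complex.I) - TP k x) := by ring
  rw [← h4]
  exact h3

lemma RT_nonneg (k : ℕ) : ∀ x : ℝ, 0 ≤ x → ‖RT k x‖ ≤ x ^ k / k.factorial := by
  induction k with
  | zero =>
    intro x _
    unfold RT TP
    simp [Complex.norm_exp_ofReal_mul_I]
  | succ k ih =>
    intro x hx
    have h1 := image_norm_le_of_norm_deriv_right_le_deriv_boundary (f := RT (k + 1))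
      (f' := fun x => Complex.I * RT k x) (a := 0) (b := x)
      (B := fun x => x ^ (k + 1) / (k + 1).factorial) (B' := fun x => x ^ k / k.factorial)
      (fun y _ => (RT_hasDerivAt k y).continuousAt.continuousWithinAt)
      (fun y _ => (RT_hasDerivAt k y).hasDerivWithinAt)
      (by
        unfold RT TP
        rw [sum_range_succ']
        simp)
      (fun y => by
        have h2 := (hasDerivAt_pow (k + 1) y).div_const ((k + 1).factorial : ℝ)
        have h3 : ((k + 1 : ℕ) : ℝ) * y ^ (k + 1 - 1) / ((k + 1).factorial : ℝ) =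
            y ^ k / k.factorial := by
          rw [Nat.add_sub_cancel, Nat.factorial_succ]
          push_cast
          have h5 : ((j : ℕ) → True) := fun _ => trivial
          have h6 : ((k.factorial : ℕ) : ℝ) ≠ 0 := by exact_mod_cast Nat.factorial_ne_zero k
          have h7 : ((k : ℝ) + 1) ≠ 0 := by positivity
          field_simp
        rw [← h3]
        exact h2)
      (fun y hy => by
        rw [norm_mul, Complex.norm_I, one_mul]
        exact ih y hy.1)
    exact h1 (Set.right_mem_Icc.2 hx)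

lemma RT_neg (k : ℕ) (x : ℝ) : RT k (-x) = (starRingEnd ℂ) (RT k x) := by
  unfold RT TP
  rw [map_sub, ← Complex.exp_conj, map_sum]
  congr 1
  · congr 1
    simp
  · refine sum_congr rfl fun j _ => ?_
    rw [map_div₀, map_pow, map_mul, Complex.conj_ofReal, Complex.conj_I, map_natCast]
    congr 2
    push_cast
    ring

lemma RT_le (k : ℕ) (x : ℝ) : ‖RT k x‖ ≤ |x| ^ k / k.factorial := by
  rcases le_total 0 x with h | h
  · rw [abs_of_nonneg h]; exact RT_nonneg k x h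
  · have h1 := RT_nonneg k (-x) (by linarith)
    rw [RT_neg, RCLike.norm_conj] at h1
    rw [abs_of_nonpos h]
    exact h1

/-! ## Comparison of two finite weighted families through their moments -/

theorem compare {ι κ : Type} (s : Finset ι) (r : Finset κ) (a : ι → ℝ) (b : κ → ℝ)
    (X : ι → ℝ) (Y : κ → ℝ) (ha : ∀ i ∈ s, 0 ≤ a i) (hb : ∀ i ∈ r, 0 ≤ b i) (t δ B : ℝ) (k : ℕ)
    (hk : Even k) (hδ : 0 ≤ δ)
    (hm : ∀ j ≤ k, |∑ i ∈ s, a i * X i ^ j - ∑ i ∈ r, b i * Y i ^ j| ≤ 2 ^ j * δ)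
    (hB : |t| ^ k * (∑ i ∈ r, b i * Y i ^ k) / k.factorial ≤ B) :
    ‖∑ i ∈ s, (a i : ℂ) * Complex.exp ((t * X i : ℝ) * Complex.I) -
      ∑ i ∈ r, (b i : ℂ) * Complex.exp ((t * Y i : ℝ) * Complex.I)‖ ≤
      2 * Real.exp (2 * |t|) * δ + 2 * B := by
  have hexp : ∀ n : ℕ, ∑ j ∈ range n, (2 * |t|) ^ j / j.factorial ≤ Real.exp (2 * |t|) :=
    fun n => Real.sum_le_exp_of_nonneg (by positivity) n
  have hterm : (2 * |t|) ^ k / k.factorial ≤ Real.exp (2 * |t|) := by
    refine le_trans ?_ (hexp (k + 1))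
    exact single_le_sum (f := fun j => (2 * |t|) ^ j / (j.factorial : ℝ))
      (fun j _ => by positivity) (mem_range.2 (Nat.lt_succ_self k))
  -- the Taylor polynomials
  have hT : ∀ {α : Type} (u : Finset α) (c : α → ℝ) (Z : α → ℝ),
      ∑ i ∈ u, (c i : ℂ) * TP k (t * Z i) = ∑ j ∈ range k,
        ((t : ℂ) * Complex.I) ^ j / (j.factorial : ℂ) * ((∑ i ∈ u, c i * Z i ^ j : ℝ) : ℂ) := by
    intro α u c Z
    unfold TP
    simp_rw [mul_sum]
    rw [sum_comm]
    refine sum_congr rfl fun j _ => ?_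
    push_cast
    rw [mul_sum]
    refine sum_congr rfl fun i _ => ?_
    ring
  have hsplit : ∀ {α : Type} (u : Finset α) (c : α → ℝ) (Z : α → ℝ),
      ∑ i ∈ u, (c i : ℂ) * Complex.exp ((t * Z i : ℝ) * Complex.I) =
        ∑ i ∈ u, (c i : ℂ) * TP k (t * Z i) + ∑ i ∈ u, (c i : ℂ) * RT k (t * Z i) := by
    intro α u c Z
    rw [← sum_add_distrib]
    refine sum_congr rfl fun i _ => ?_
    unfold RT
    ring
  have hrem : ∀ {α : Type} (u : Finset α) (c : α → ℝ) (Z : α → ℝ), (∀ i ∈ u, 0 ≤ c i) →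
      ‖∑ i ∈ u, (c i : ℂ) * RT k (t * Z i)‖ ≤ |t| ^ k * (∑ i ∈ u, c i * Z i ^ k) / k.factorial := by
    intro α u c Z hc
    refine (norm_sum_le _ _).trans ?_
    rw [mul_sum, sum_div]
    refine sum_le_sum fun i hi => ?_
    rw [norm_mul, Complex.norm_real, Real.norm_of_nonneg (hc i hi)]
    have h1 := RT_le k (t * Z i)
    have h2 : |t * Z i| ^ k = |t| ^ k * Z i ^ k := by
      rw [abs_mul, mul_pow, hk.pow_abs (Z i)]
    rw [h2] at h1
    calc c i * ‖RT k (t * Z i)‖ ≤ c i * (|t| ^ k * Z i ^ k / k.factorial) :=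
          mul_le_mul_of_nonneg_left h1 (hc i hi)
      _ = _ := by ring
  have h1 : ‖∑ i ∈ s, (a i : ℂ) * TP k (t * X i) - ∑ i ∈ r, (b i : ℂ) * TP k (t * Y i)‖ ≤
      Real.exp (2 * |t|) * δ := by
    rw [hT, hT, ← sum_sub_distrib]
    refine (norm_sum_le _ _).trans ?_
    refine le_trans ?_ (mul_le_mul_of_nonneg_right (hexp k) hδ)
    rw [sum_mul]
    refine sum_le_sum fun j hj => ?_
    rw [← mul_sub, norm_mul, norm_div, norm_pow, norm_mul, Complex.norm_I, mul_one,
      Complex.norm_real, Real.norm_eq_abs, Complex.norm_natCast, ← Complex.ofReal_sub,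
      Complex.norm_real, Real.norm_eq_abs]
    calc |t| ^ j / (j.factorial : ℝ) * |∑ i ∈ s, a i * X i ^ j - ∑ i ∈ r, b i * Y i ^ j| ≤
          |t| ^ j / (j.factorial : ℝ) * (2 ^ j * δ) :=
          mul_le_mul_of_nonneg_left (hm j (mem_range.1 hj).le) (by positivity)
      _ = _ := by rw [mul_pow]; ring
  have h2 : ‖∑ i ∈ s, (a i : ℂ) * RT k (t * X i)‖ ≤ B + Real.exp (2 * |t|) * δ := by
    refine (hrem s a X ha).trans ?_
    have h3 := (abs_le.1 (hm k le_rfl)).2
    have h4 : ∑ i ∈ s, a i * X i ^ k ≤ ∑ i ∈ r, b i * Y i ^ k + 2 ^ k * δ := by linarith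
    have h5 : |t| ^ k * (∑ i ∈ s, a i * X i ^ k) / k.factorial ≤
        |t| ^ k * (∑ i ∈ r, b i * Y i ^ k + 2 ^ k * δ) / k.factorial := by
      gcongr
    refine h5.trans ?_
    have h6 : |t| ^ k * (∑ i ∈ r, b i * Y i ^ k + 2 ^ k * δ) / k.factorial =
        |t| ^ k * (∑ i ∈ r, b i * Y i ^ k) / k.factorial + (2 * |t|) ^ k / k.factorial * δ := by
      rw [mul_pow]; ring
    rw [h6]
    exact add_le_add hB (mul_le_mul_of_nonneg_right hterm hδ)
  have h3 : ‖∑ i ∈ r, (b i : ℂ) * RT k (t * Y i)‖ ≤ B := (hrem r b Y hb).trans hB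
  rw [hsplit s a X, hsplit r b Y]
  have h4 : ∀ A1 A2 A3 A4 : ℂ, A1 + A2 - (A3 + A4) = (A1 - A3) + A2 - A4 := by
    intro A1 A2 A3 A4; ring
  rw [h4]
  calc ‖(∑ i ∈ s, (a i : ℂ) * TP k (t * X i) - ∑ i ∈ r, (b i : ℂ) * TP k (t * Y i)) +
        ∑ i ∈ s, (a i : ℂ) * RT k (t * X i) - ∑ i ∈ r, (b i : ℂ) * RT k (t * Y i)‖ ≤
      ‖∑ i ∈ s, (a i : ℂ) * TP k (t * X i) - ∑ i ∈ r, (b i : ℂ) * TP k (t * Y i)‖ +
        ‖∑ i ∈ s, (a i : ℂ) * RT k (t * X i)‖ + ‖∑ i ∈ r, (b i : ℂ) * RT k (t * Y i)‖ :=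
        (norm_sub_le _ _).trans (add_le_add (norm_add_le _ _) le_rfl)
    _ ≤ _ := by linarith

end Pool.Agent.Helper94.EP
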