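import Pool.Agent.Helper94.EP.EKUa

/-! # EP/EKU: moments of random sets (helper94) -/

set_option autoImplicit false

open Finset

namespace Pool.Agent.Helper94.EP

/-- moments of the number of elements of a random subset of `P` in terms of the probabilities of
containing a given set -/
lemma card_pow {P S : Finset ℕ} (hS : S ⊆ P) (i : ℕ) :
    ((S.card : ℝ)) ^ i = ∑ f ∈ Fintype.piFinset (fun _ : Fin i => P),
      if univ.image f ⊆ S then (1 : ℝ) else 0 := by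
  have h1 : (S.card : ℝ) = ∑ p ∈ P, if p ∈ S then (1 : ℝ) else 0 := by
    rw [sum_ite_mem, inter_eq_right.2 hS]
    simp
  have h2 : ((S.card : ℝ)) ^ i = ∏ _j : Fin i, ∑ p ∈ P, (if p ∈ S then (1 : ℝ) else 0) := by
    rw [prod_const, card_univ, Fintype.card_fin, h1]
  rw [h2, prod_univ_sum]
  refine sum_congr rfl fun f _ => ?_
  by_cases h : univ.image f ⊆ S
  · rw [if_pos h]
    refine prod_eq_one fun j _ => ?_
    rw [if_pos (h (mem_image_of_mem _ (mem_univ j)))]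
  · rw [if_neg h]
    have : ∃ j, f j ∉ S := by
      by_contra hc
      push Not at hc
      refine h fun p hp => ?_
      obtain ⟨j, _, rfl⟩ := mem_image.1 hp
      exact hc j
    obtain ⟨j, hj⟩ := this
    exact prod_eq_zero (mem_univ j) (if_neg hj)

/-- comparison of the power moments -/
theorem moments {ι κ : Type} (s : Finset ι) (r : Finset κ) (a : ι → ℝ) (b : κ → ℝ)
    (P : Finset ℕ) (S : ι → Finset ℕ) (T : κ → Finset ℕ) (hS : ∀ i ∈ s, S i ⊆ P)
    (hT : ∀ i ∈ r, T i ⊆ P) (k : ℕ) (η : ℝ) (hη : 0 ≤ η)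
    (h : ∀ Q ⊆ P, Q.card ≤ k → |∑ i ∈ s, a i * (if Q ⊆ S i then 1 else 0) -
      ∑ i ∈ r, b i * (if Q ⊆ T i then 1 else 0)| ≤ η) (m : ℕ) (hm : m ≤ k) :
    |∑ i ∈ s, a i * ((S i).card : ℝ) ^ m - ∑ i ∈ r, b i * ((T i).card : ℝ) ^ m| ≤
      (P.card : ℝ) ^ m * η := by
  classical
  have e1 : ∑ i ∈ s, a i * ((S i).card : ℝ) ^ m =
      ∑ f ∈ Fintype.piFinset (fun _ : Fin m => P),
        ∑ i ∈ s, a i * (if univ.image f ⊆ S i then 1 else 0) := by
    rw [sum_comm]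
    refine sum_congr rfl fun i hi => ?_
    rw [card_pow (hS i hi), mul_sum]
  have e2 : ∑ i ∈ r, b i * ((T i).card : ℝ) ^ m =
      ∑ f ∈ Fintype.piFinset (fun _ : Fin m => P),
        ∑ i ∈ r, b i * (if univ.image f ⊆ T i then 1 else 0) := by
    rw [sum_comm]
    refine sum_congr rfl fun i hi => ?_
    rw [card_pow (hT i hi), mul_sum]
  rw [e1, e2, ← sum_sub_distrib]
  refine (abs_sum_le_sum_abs _ _).trans ?_
  have h3 : ∀ f ∈ Fintype.piFinset (fun _ : Fin m => P),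
      |∑ i ∈ s, a i * (if univ.image f ⊆ S i then 1 else 0) -
        ∑ i ∈ r, b i * (if univ.image f ⊆ T i then 1 else 0)| ≤ η := by
    intro f hf
    refine h _ ?_ ?_
    · intro p hp
      obtain ⟨j, _, rfl⟩ := mem_image.1 hp
      exact Fintype.mem_piFinset.1 hf j
    · refine (card_image_le).trans ?_
      rw [card_univ, Fintype.card_fin]
      exact hm
  refine (sum_le_sum h3).trans ?_
  rw [sum_const, nsmul_eq_mul, Fintype.card_piFinset_const, Nat.cast_pow]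

/-- comparison of the moments of the normalised variable -/
theorem moments' {ι κ : Type} (s : Finset ι) (r : Finset κ) (a : ι → ℝ) (b : κ → ℝ)
    (P : Finset ℕ) (S : ι → Finset ℕ) (T : κ → Finset ℕ) (hS : ∀ i ∈ s, S i ⊆ P)
    (hT : ∀ i ∈ r, T i ⊆ P) (k : ℕ) (δ : ℝ) (hδ : 0 ≤ δ)
    (h : ∀ Q ⊆ P, Q.card ≤ k → |∑ i ∈ s, a i * (if Q ⊆ S i then 1 else 0) -
      ∑ i ∈ r, b i * (if Q ⊆ T i then 1 else 0)| ≤ δ / (1 + (P.card : ℝ)) ^ k)
    (L σ : ℝ) (hL : 0 ≤ L) (hL' : L ≤ P.card) (hσ : 1 ≤ σ) (j : ℕ) (hj : j ≤ k) :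
    |∑ i ∈ s, a i * ((((S i).card : ℝ) - L) / σ) ^ j -
      ∑ i ∈ r, b i * ((((T i).card : ℝ) - L) / σ) ^ j| ≤ 2 ^ j * δ := by
  have hσ0 : 0 < σ := by linarith
  set η : ℝ := δ / (1 + (P.card : ℝ)) ^ k with hη
  have hP : (0 : ℝ) < 1 + (P.card : ℝ) := by positivity
  have hη0 : 0 ≤ η := by positivity
  have e : ∀ {α : Type} (u : Finset α) (c : α → ℝ) (Z : α → Finset ℕ),
      ∑ i ∈ u, c i * ((((Z i).card : ℝ) - L) / σ) ^ j =
        (σ ^ j)⁻¹ * ∑ m ∈ range (j + 1), (-L) ^ (j - m) * (j.choose m : ℝ) *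
          ∑ i ∈ u, c i * ((Z i).card : ℝ) ^ m := by
    intro α u c Z
    simp_rw [mul_sum]
    rw [sum_comm]
    refine sum_congr rfl fun i _ => ?_
    rw [div_pow, sub_eq_add_neg, add_pow, div_eq_inv_mul]
    rw [← mul_assoc, mul_comm (c i), mul_assoc, mul_sum]
    rw [mul_sum]
    refine sum_congr rfl fun m _ => ?_
    ring
  rw [e, e, ← mul_sub, ← sum_sub_distrib, abs_mul, abs_of_pos (by positivity)]
  have h1 : |∑ m ∈ range (j + 1), ((-L) ^ (j - m) * (j.choose m : ℝ) *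
      ∑ i ∈ s, a i * ((S i).card : ℝ) ^ m - (-L) ^ (j - m) * (j.choose m : ℝ) *
        ∑ i ∈ r, b i * ((T i).card : ℝ) ^ m)| ≤ ((P.card : ℝ) + L) ^ j * η := by
    refine (abs_sum_le_sum_abs _ _).trans ?_
    rw [add_pow, sum_mul]
    refine sum_le_sum fun m hm => ?_
    rw [← mul_sub, abs_mul, abs_mul, abs_pow, abs_neg, abs_of_nonneg hL, Nat.abs_cast]
    have h2 := moments s r a b P S T hS hT k η hη0 h m
      ((Nat.lt_succ_iff.1 (mem_range.1 hm)).trans hj)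
    calc L ^ (j - m) * (j.choose m : ℝ) * |∑ i ∈ s, a i * ((S i).card : ℝ) ^ m -
          ∑ i ∈ r, b i * ((T i).card : ℝ) ^ m| ≤
        L ^ (j - m) * (j.choose m : ℝ) * ((P.card : ℝ) ^ m * η) :=
          mul_le_mul_of_nonneg_left h2 (by positivity)
      _ = _ := by ring
  have h2 : ((P.card : ℝ) + L) ^ j * η ≤ 2 ^ j * δ := by
    have h3 : ((P.card : ℝ) + L) ^ j ≤ (2 * (1 + (P.card : ℝ))) ^ j := by
      refine pow_le_pow_left₀ (by positivity) ?_ j
      have : (0 : ℝ) ≤ P.card := by positivity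
      linarith
    have h4 : (1 + (P.card : ℝ)) ^ j ≤ (1 + (P.card : ℝ)) ^ k := by
      refine pow_le_pow_right₀ ?_ hj
      have : (0 : ℝ) ≤ P.card := by positivity
      linarith
    calc ((P.card : ℝ) + L) ^ j * η ≤ (2 * (1 + (P.card : ℝ))) ^ j * η :=
          mul_le_mul_of_nonneg_right h3 hη0
      _ = 2 ^ j * ((1 + (P.card : ℝ)) ^ j * η) := by rw [mul_pow]; ring
      _ ≤ 2 ^ j * ((1 + (P.card : ℝ)) ^ k * η) := by gcongr
      _ = 2 ^ j * δ := by
          rw [hη, mul_div_cancel₀ _ (pow_pos hP k).ne']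
  have h5 : (σ ^ j)⁻¹ ≤ 1 := inv_le_one_of_one_le₀ (one_le_pow₀ hσ)
  calc (σ ^ j)⁻¹ * _ ≤ 1 * (((P.card : ℝ) + L) ^ j * η) :=
        mul_le_mul h5 h1 (abs_nonneg _) zero_le_one
    _ ≤ _ := by rw [one_mul]; exact h2

end Pool.Agent.Helper94.EP
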