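import Pool.Agent.Helper20.EP.Spec1
import Pool.Agent.Helper20.EP.Spec2

/-! # EP: partial summation and Mertens' second theorem (helper94) -/

set_option autoImplicit false

open Finset MeasureTheory Polynomial

namespace Pool.Agent.Helper94.EP

open Pool.Agent.Helper20.EP

lemma log_pos' {t : ℝ} (h : 2 ≤ t) : 0 < Real.log t := Real.log_pos (by linarith)

/-- the primitive -/
noncomputable def Phi (C t : ℝ) : ℝ := ll t - C / Real.log t

lemma Phi_deriv (C : ℝ) {t : ℝ} (h : 2 ≤ t) :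
    HasDerivAt (Phi C) ((Real.log t + C) * (t⁻¹ / Real.log t ^ 2)) t := by
  have ht : t ≠ 0 := by linarith
  have hl := log_pos' h
  have h1 := Real.hasDerivAt_log ht
  have h2 := h1.log hl.ne'
  have h3 := (h1.inv hl.ne').const_mul C
  have h4 := h2.sub h3
  have h5 : t⁻¹ / Real.log t - C * (-t⁻¹ / Real.log t ^ 2) =
      (Real.log t + C) * (t⁻¹ / Real.log t ^ 2) := by
    field_simp
    ring
  rw [← h5]
  exact h4

lemma inv_log_deriv {t : ℝ} (h : 2 ≤ t) :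
    HasDerivAt (fun t => (Real.log t)⁻¹) (-(t⁻¹ / Real.log t ^ 2)) t := by
  have ht : t ≠ 0 := by linarith
  have hl := log_pos' h
  have h1 := (Real.hasDerivAt_log ht).inv hl.ne'
  rw [← neg_div]
  exact h1

lemma cont_w (x y : ℝ) (hx : 2 ≤ x) :
    ContinuousOn (fun t : ℝ => t⁻¹ / Real.log t ^ 2) (Set.Icc x y) := by
  intro t ht
  have h2 : 2 ≤ t := hx.trans ht.1
  have ht0 : t ≠ 0 := by linarith
  have hl := log_pos' h2
  refine ContinuousAt.continuousWithinAt ?_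
  refine (continuousAt_inv₀ ht0).div ((Real.continuousAt_log ht0).pow 2) ?_
  positivity

lemma cont_wC (C x y : ℝ) (hx : 2 ≤ x) :
    ContinuousOn (fun t : ℝ => (Real.log t + C) * (t⁻¹ / Real.log t ^ 2)) (Set.Icc x y) := by
  refine ContinuousOn.mul ?_ (cont_w x y hx)
  intro t ht
  have h2 : 2 ≤ t := hx.trans ht.1
  have ht0 : t ≠ 0 := by linarith
  exact ((Real.continuousAt_log ht0).add continuousAt_const).continuousWithinAt

lemma int_Phi (C x y : ℝ) (hx : 2 ≤ x) (hxy : x ≤ y) :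
    ∫ t in Set.Ioc x y, (Real.log t + C) * (t⁻¹ / Real.log t ^ 2) = Phi C y - Phi C x := by
  rw [← intervalIntegral.integral_of_le hxy]
  refine intervalIntegral.integral_eq_sub_of_hasDerivAt ?_ ?_
  · intro t ht
    rw [Set.uIcc_of_le hxy] at ht
    exact Phi_deriv C (hx.trans ht.1)
  · refine ContinuousOn.intervalIntegrable ?_
    rw [Set.uIcc_of_le hxy]
    exact cont_wC C x y hx

/-- Abel's summation -/
lemma abel (c : ℕ → ℝ) (x y : ℝ) (hx : 2 ≤ x) (hxy : x ≤ y) :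
    ∑ k ∈ Ioc ⌊x⌋₊ ⌊y⌋₊, (Real.log k)⁻¹ * c k =
      (Real.log y)⁻¹ * (∑ k ∈ Icc 0 ⌊y⌋₊, c k) - (Real.log x)⁻¹ * (∑ k ∈ Icc 0 ⌊x⌋₊, c k) +
        ∫ t in Set.Ioc x y, (∑ k ∈ Icc 0 ⌊t⌋₊, c k) * (t⁻¹ / Real.log t ^ 2) := by
  have hd : ∀ t ∈ Set.Icc x y, DifferentiableAt ℝ (fun t : ℝ => (Real.log t)⁻¹) t :=
    fun t ht => (inv_log_deriv (hx.trans ht.1)).differentiableAt
  have hdv : ∀ t ∈ Set.Icc x y, deriv (fun t : ℝ => (Real.log t)⁻¹) t =
      -(t⁻¹ / Real.log t ^ 2) := fun t ht => (inv_log_deriv (hx.trans ht.1)).deriv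
  have hi : IntegrableOn (deriv (fun t : ℝ => (Real.log t)⁻¹)) (Set.Icc x y) := by
    refine IntegrableOn.congr_fun (f := fun t => -(t⁻¹ / Real.log t ^ 2)) ?_
      (fun t ht => (hdv t ht).symm) measurableSet_Icc
    exact (cont_w x y hx).neg.integrableOn_Icc
  rw [sum_mul_eq_sub_sub_integral_mul c (f := fun t : ℝ => (Real.log t)⁻¹) (by linarith) hxy hd hi]
  have h1 : ∫ t in Set.Ioc x y, deriv (fun t : ℝ => (Real.log t)⁻¹) t *
      ∑ k ∈ Icc 0 ⌊t⌋₊, c k = -∫ t in Set.Ioc x y, (∑ k ∈ Icc 0 ⌊t⌋₊, c k) *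
        (t⁻¹ / Real.log t ^ 2) := by
    rw [← integral_neg]
    refine setIntegral_congr_fun measurableSet_Ioc fun t ht => ?_
    beta_reduce
    rw [hdv t (Set.Ioc_subset_Icc_self ht)]
    ring
  rw [h1, sub_neg_eq_add]

lemma integrable_S (c : ℕ → ℝ) (x y : ℝ) (hx : 2 ≤ x) :
    IntegrableOn (fun t => (∑ k ∈ Icc 0 ⌊t⌋₊, c k) * (t⁻¹ / Real.log t ^ 2)) (Set.Ioc x y) := by
  have h1 := integrableOn_mul_sum_Icc (m := 0) c (a := x) (b := y) (by linarith)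
    (cont_w x y hx).integrableOn_Icc
  refine (h1.mono_set Set.Ioc_subset_Icc_self).congr_fun (fun t _ => ?_) measurableSet_Ioc
  simp only
  ring

lemma w_nonneg {t : ℝ} (h : 2 ≤ t) : 0 ≤ t⁻¹ / Real.log t ^ 2 := by
  have := log_pos' h
  positivity

theorem abel_upper (c : ℕ → ℝ) (x y C : ℝ) (hx : 2 ≤ x) (hxy : x ≤ y)
    (h : ∀ t, x ≤ t → t ≤ y → ∑ k ∈ Icc 0 ⌊t⌋₊, c k ≤ Real.log t + C)
    (h0 : 0 ≤ ∑ k ∈ Icc 0 ⌊x⌋₊, c k) :
    ∑ k ∈ Ioc ⌊x⌋₊ ⌊y⌋₊, (Real.log k)⁻¹ * c k ≤ ll y - ll x + 1 + C / Real.log x := by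
  rw [abel c x y hx hxy]
  have hly := log_pos' (hx.trans hxy)
  have hlx := log_pos' hx
  have h1 : ∫ t in Set.Ioc x y, (∑ k ∈ Icc 0 ⌊t⌋₊, c k) * (t⁻¹ / Real.log t ^ 2) ≤
      Phi C y - Phi C x := by
    rw [← int_Phi C x y hx hxy]
    refine setIntegral_mono_on (integrable_S c x y hx)
      ((cont_wC C x y hx).integrableOn_Icc.mono_set Set.Ioc_subset_Icc_self) measurableSet_Ioc
      fun t ht => ?_
    exact mul_le_mul_of_nonneg_right (h t ht.1.le ht.2) (w_nonneg (hx.trans ht.1.le))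
  have h2 : (Real.log y)⁻¹ * (∑ k ∈ Icc 0 ⌊y⌋₊, c k) ≤ 1 + C / Real.log y := by
    have := mul_le_mul_of_nonneg_left (h y hxy le_rfl) (inv_pos.2 hly).le
    refine this.trans (le_of_eq ?_)
    field_simp
  have h3 : 0 ≤ (Real.log x)⁻¹ * (∑ k ∈ Icc 0 ⌊x⌋₊, c k) := by positivity
  unfold Phi at h1
  linarith

theorem abel_lower (c : ℕ → ℝ) (x y C₁ C₂ : ℝ) (hx : 2 ≤ x) (hxy : x ≤ y)
    (h : ∀ t, x ≤ t → t ≤ y → Real.log t - C₂ ≤ ∑ k ∈ Icc 0 ⌊t⌋₊, c k)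
    (h0 : ∑ k ∈ Icc 0 ⌊x⌋₊, c k ≤ Real.log x + C₁) :
    ll y - ll x - (C₁ + C₂) / Real.log x ≤ ∑ k ∈ Ioc ⌊x⌋₊ ⌊y⌋₊, (Real.log k)⁻¹ * c k := by
  rw [abel c x y hx hxy]
  have hly := log_pos' (hx.trans hxy)
  have hlx := log_pos' hx
  have h1 : Phi (-C₂) y - Phi (-C₂) x ≤
      ∫ t in Set.Ioc x y, (∑ k ∈ Icc 0 ⌊t⌋₊, c k) * (t⁻¹ / Real.log t ^ 2) := by
    rw [← int_Phi (-C₂) x y hx hxy]
    refine setIntegral_mono_on ((cont_wC (-C₂) x y hx).integrableOn_Icc.mono_set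
      Set.Ioc_subset_Icc_self) (integrable_S c x y hx) measurableSet_Ioc fun t ht => ?_
    refine mul_le_mul_of_nonneg_right ?_ (w_nonneg (hx.trans ht.1.le))
    have := h t ht.1.le ht.2
    linarith
  have h2 : 1 - C₂ / Real.log y ≤ (Real.log y)⁻¹ * (∑ k ∈ Icc 0 ⌊y⌋₊, c k) := by
    have := mul_le_mul_of_nonneg_left (h y hxy le_rfl) (inv_pos.2 hly).le
    refine (le_of_eq ?_).trans this
    field_simp
  have h3 : (Real.log x)⁻¹ * (∑ k ∈ Icc 0 ⌊x⌋₊, c k) ≤ 1 + C₁ / Real.log x := by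
    have := mul_le_mul_of_nonneg_left h0 (inv_pos.2 hlx).le
    refine this.trans (le_of_eq ?_)
    field_simp
  unfold Phi at h1
  have h4 : (C₁ + C₂) / Real.log x = C₁ / Real.log x + C₂ / Real.log x := add_div _ _ _
  rw [neg_div, neg_div] at h1
  linarith

/-! ## sums over primes -/

lemma sum_primes (f : ℕ → ℝ) (t : ℝ) :
    ∑ k ∈ Icc 0 ⌊t⌋₊, (if k.Prime then f k * Real.log k / k else 0) =
      ∑ p ∈ primesLE t, f p * Real.log p / p := by
  unfold primesLE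
  rw [sum_filter]
  refine sum_congr ?_ fun _ _ => rfl
  ext k
  simp [Nat.lt_succ_iff]

lemma sum_primes' (f : ℕ → ℝ) (x y : ℝ) (hx : 2 ≤ x) :
    ∑ k ∈ Ioc ⌊x⌋₊ ⌊y⌋₊, (Real.log k)⁻¹ * (if k.Prime then f k * Real.log k / k else 0) =
      ∑ p ∈ (primesLE y).filter (fun p : ℕ => x < p), f p / p := by
  have h1 : (primesLE y).filter (fun p : ℕ => x < p) =
      (Ioc ⌊x⌋₊ ⌊y⌋₊).filter Nat.Prime := by
    ext k
    unfold primesLE
    simp only [mem_filter, mem_range, mem_Ioc, Nat.lt_succ_iff]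
    constructor
    · rintro ⟨⟨h1, h2⟩, h3⟩
      exact ⟨⟨(Nat.floor_lt (by linarith)).2 h3, h1⟩, h2⟩
    · rintro ⟨⟨h1, h2⟩, h3⟩
      exact ⟨⟨h2, h3⟩, (Nat.floor_lt (by linarith)).1 h1⟩
  rw [h1, sum_filter]
  refine sum_congr rfl fun k _ => ?_
  split_ifs with hk
  · have h2 : 0 < Real.log k := Real.log_pos (by exact_mod_cast hk.one_lt)
    field_simp
  · rw [mul_zero]

theorem psum_upper (f : ℕ → ℝ) (x y C : ℝ) (hx : 2 ≤ x) (hxy : x ≤ y)
    (h : ∀ Y, x ≤ Y → Y ≤ y → ∑ p ∈ primesLE Y, f p * Real.log p / p ≤ Real.log Y + C)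
    (h0 : 0 ≤ ∑ p ∈ primesLE x, f p * Real.log p / p) :
    ∑ p ∈ (primesLE y).filter (fun p : ℕ => x < p), f p / p ≤
      ll y - ll x + 1 + C / Real.log x := by
  rw [← sum_primes' f x y hx]
  refine abel_upper _ x y C hx hxy (fun t h1 h2 => ?_) ?_
  · rw [sum_primes]; exact h t h1 h2
  · rw [sum_primes]; exact h0

theorem psum_lower (f : ℕ → ℝ) (x y C₁ C₂ : ℝ) (hx : 2 ≤ x) (hxy : x ≤ y)
    (h : ∀ Y, x ≤ Y → Y ≤ y → Real.log Y - C₂ ≤ ∑ p ∈ primesLE Y, f p * Real.log p / p)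
    (h0 : ∑ p ∈ primesLE x, f p * Real.log p / p ≤ Real.log x + C₁) :
    ll y - ll x - (C₁ + C₂) / Real.log x ≤
      ∑ p ∈ (primesLE y).filter (fun p : ℕ => x < p), f p / p := by
  rw [← sum_primes' f x y hx]
  refine abel_lower _ x y C₁ C₂ hx hxy (fun t h1 h2 => ?_) ?_
  · rw [sum_primes]; exact h t h1 h2
  · rw [sum_primes]; exact h0

/-! ## Mertens' theorem from OSM and TSM -/

lemma rho_X (p : ℕ) (hp : p ≠ 0) : rho X p = 1 := by
  unfold rho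
  rw [card_eq_one]
  refine ⟨0, ?_⟩
  ext k
  simp only [mem_filter, mem_range, eval_X, mem_singleton]
  constructor
  · rintro ⟨h1, h2⟩
    have h3 : p ∣ k := by exact_mod_cast h2
    exact Nat.eq_zero_of_dvd_of_lt h3 h1
  · rintro rfl
    exact ⟨Nat.pos_of_ne_zero hp, by simp⟩

lemma rootsLE_X : RootsLE X 2 := by
  intro z hz
  rw [aeval_X] at hz
  rw [hz]
  simp

lemma prime_sum_rho_X (Y : ℝ) : ∑ p ∈ primesLE Y, (rho X p : ℝ) * Real.log p / p =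
    ∑ p ∈ primesLE Y, (1 : ℝ) * Real.log p / p := by
  refine sum_congr rfl fun p hp => ?_
  have hp' : p.Prime := (mem_filter.1 hp).2
  rw [rho_X p hp'.ne_zero, Nat.cast_one]

/-- Mertens' first theorem -/
theorem mertens1 (h1 : S_OSM) (h2 : S_TSM) : ∃ C : ℝ, 0 < C ∧ ∀ Y : ℝ, 1 ≤ Y →
    ∑ p ∈ primesLE Y, (1 : ℝ) * Real.log p / p ≤ Real.log Y + C ∧
    Real.log Y - C ≤ ∑ p ∈ primesLE Y, (1 : ℝ) * Real.log p / p := by
  obtain ⟨A, hA, hA'⟩ := h1 1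
  obtain ⟨B, hB⟩ := h2 1
  have hl2 : 0 < Real.log 2 := Real.log_pos (by norm_num)
  refine ⟨A * Real.log 2 + 2 ^ B, by positivity, fun Y hY => ?_⟩
  have e1 := hA' X monic_X (irreducible_X) natDegree_X 2 le_rfl rootsLE_X Y hY
  have e2 := hB X monic_X (irreducible_X) natDegree_X le_rfl 2 le_rfl rootsLE_X Y hY
  rw [prime_sum_rho_X] at e1 e2
  have h3 : (0 : ℝ) < 2 ^ B := by positivity
  have h4 : 0 < A * Real.log 2 := by positivity
  constructor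
  · linarith
  · linarith

lemma sum_nonneg' (x : ℝ) : 0 ≤ ∑ p ∈ primesLE x, (1 : ℝ) * Real.log p / p := by
  refine sum_nonneg fun p hp => ?_
  have hp' : p.Prime := (mem_filter.1 hp).2
  have : 0 ≤ Real.log p := Real.log_nonneg (by exact_mod_cast hp'.one_lt.le)
  positivity

/-- Mertens' second theorem -/
theorem mertens2 (h1 : S_OSM) (h2 : S_TSM) : ∃ C : ℝ, 0 < C ∧ ∀ x y : ℝ, 2 ≤ x → x ≤ y →
    ∑ p ∈ (primesLE y).filter (fun p : ℕ => x < p), (1 : ℝ) / p ≤ ll y - ll x + C ∧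
    ll y - ll x - C ≤ ∑ p ∈ (primesLE y).filter (fun p : ℕ => x < p), (1 : ℝ) / p := by
  obtain ⟨A, hA, hA'⟩ := mertens1 h1 h2
  have hl2 : 0 < Real.log 2 := Real.log_pos (by norm_num)
  refine ⟨1 + 2 * A / Real.log 2, by positivity, fun x y hx hxy => ?_⟩
  have hlx : Real.log 2 ≤ Real.log x := Real.log_le_log (by norm_num) hx
  have h3 : A / Real.log x ≤ A / Real.log 2 := div_le_div_of_nonneg_left hA.le hl2 hlx
  have h5 : 0 < A / Real.log 2 := by positivity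
  have e1 := psum_upper (fun _ => 1) x y A hx hxy
    (fun Y h _ => (hA' Y (by linarith)).1) (sum_nonneg' x)
  have e2 := psum_lower (fun _ => 1) x y A A hx hxy
    (fun Y h _ => (hA' Y (by linarith)).2) (hA' x (by linarith)).1
  have h4 : (A + A) / Real.log x = 2 * (A / Real.log x) := by ring
  have h6 : 2 * A / Real.log 2 = 2 * (A / Real.log 2) := by ring
  rw [h4] at e2
  rw [h6]
  constructor
  · linarith
  · linarith

end Pool.Agent.Helper94.EP
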